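import Pool.Agent.Lib.MP_b138e1_al.NS.Defs

/-!
The local code: functions with zero sums on all affine lines.
-/

set_option autoImplicit false

namespace Pool.Agent.NS

namespace Code

variable {F : Type} [Field F] [Fintype F] {n : ℕ}

theorem sum_eval (P : Polynomial F) (h : P.natDegree < Fintype.card F - 1) :
    ∑ a : F, P.eval a = 0 := by
  simp only [Polynomial.eval_eq_sum_range]
  rw [Finset.sum_comm]
  refine Finset.sum_eq_zero fun i hi => ?_
  rw [← Finset.mul_sum, FiniteField.sum_pow_lt_card_sub_one F i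
    ((Nat.lt_succ_iff.1 (Finset.mem_range.1 hi)).trans_lt h), mul_zero]

theorem mono_mem [CharP F 2] {A Q b : ℕ} (hq : Fintype.card F = A * Q * 2 ^ b) (hQ : n + 2 ≤ Q)
    {e : Fin n → ℕ} (h1 : ∀ i, e i < Fintype.card F) (h2 : ∀ i, e i / A % Q = 0) :
    (fun x : Fin n → F => ∏ i, x i ^ e i) ∈ LineCode F n := fun x d => by
  have hA : 0 < A := Nat.pos_of_ne_zero fun h => by
    have := Fintype.card_pos (α := F)
    simp [h] at hq
  have hB : 0 < 2 ^ b := by positivity
  have e1 : ∀ i, e i * 2 ^ b = e i % A * 2 ^ b + Fintype.card F * (e i / A / Q) := fun i => by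
    have h3 := Nat.mod_add_div (e i) A
    have h4 := Nat.mod_add_div (e i / A) Q
    rw [h2, zero_add] at h4
    rw [hq]
    conv_lhs => rw [← h3, ← h4]
    ring
  have e2 : ∀ i, e i % A * 2 ^ b + e i / A / Q ≤ A * 2 ^ b := fun i => by
    have h3 : e i / A / Q < 2 ^ b := by
      rw [Nat.div_div_eq_div_mul]
      exact Nat.div_lt_of_lt_mul (hq ▸ h1 i)
    have h4 := Nat.mul_le_mul_right (2 ^ b) (Nat.succ_le_of_lt (Nat.mod_lt (e i) hA))
    rw [Nat.succ_mul] at h4
    omega
  refine pow_eq_zero_iff hB.ne' |>.1 ?_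
  rw [sum_pow_char_pow, ← sum_eval (∏ i, (Polynomial.C (d i) * Polynomial.X + Polynomial.C (x i)) ^
    (e i % A * 2 ^ b + e i / A / Q)) ?_]
  · refine Finset.sum_congr rfl fun a _ => ?_
    rw [Polynomial.eval_prod, ← Finset.prod_pow]
    refine Finset.prod_congr rfl fun i _ => ?_
    rw [← pow_mul, e1, pow_add, pow_mul _ (Fintype.card F), FiniteField.pow_card, ← pow_add]
    rw [Polynomial.eval_pow, Polynomial.eval_add, Polynomial.eval_mul, Polynomial.eval_C,
      Polynomial.eval_C, Polynomial.eval_X, Pi.add_apply, Pi.smul_apply, smul_eq_mul, add_comm (x i),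
      mul_comm a]
  · refine ((Polynomial.natDegree_prod_le _ _).trans (Finset.sum_le_card_nsmul _ _ (A * 2 ^ b)
      fun i _ => (Polynomial.natDegree_pow_le_of_le _ Polynomial.natDegree_linear_le).trans
        ((mul_one _).trans_le (e2 i)))).trans_lt ?_
    have h3 := Nat.mul_le_mul_right (A * 2 ^ b) hQ
    have h4 := Nat.mul_pos hA hB
    rw [Finset.card_fin, smul_eq_mul, hq, show A * Q * 2 ^ b = Q * (A * 2 ^ b) by ring]
    rw [add_mul] at h3
    omega

theorem indep {I : Type} [Fintype I] (e : I → Fin n → ℕ) (h1 : Function.Injective e)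
    (h2 : ∀ c i, e c i < Fintype.card F) :
    LinearIndependent F fun c => fun x : Fin n → F => ∏ i, x i ^ e c i := by
  classical
  refine Fintype.linearIndependent_iff.2 fun g hg c => ?_
  have h3 := MvPolynomial.eq_zero_of_eval_eq_zero (Fin n) F
    (∑ c, MvPolynomial.monomial (Finsupp.equivFunOnFinite.symm (e c)) (g c)) (fun v => by
      have := congrFun hg v
      simp only [Finset.sum_apply, Pi.smul_apply, smul_eq_mul, Pi.zero_apply] at this
      rw [← this, map_sum]
      refine Finset.sum_congr rfl fun c _ => ?_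
      rw [MvPolynomial.eval_monomial, Finsupp.prod_fintype _ _ fun i => pow_zero _]
      rfl)
    (Submodule.sum_mem _ fun c _ => (MvPolynomial.mem_restrictDegree _ _ _).2 fun s hs i => by
      rw [Finset.mem_singleton.1 (MvPolynomial.support_monomial_subset hs)]
      exact Nat.le_sub_one_of_lt (h2 c i))
  have h4 := congrArg (MvPolynomial.coeff (Finsupp.equivFunOnFinite.symm (e c))) h3
  simpa [MvPolynomial.coeff_sum, MvPolynomial.coeff_monomial, h1.eq_iff] using h4

theorem num {k K : ℕ} (h : k < K) : 4 * k ^ (4 * K) < K ^ (4 * K) := by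
  have h1 := pow_add_mul_le_add_pow (Nat.zero_le k) (Nat.zero_le (2 * k + 1)) (4 * K)
  have h2 := Nat.pow_le_pow_left (Nat.succ_le_of_lt h) (4 * K)
  have h3 : 0 < K ^ (4 * K) := pow_pos (by omega) _
  have h4 : k ^ (4 * K) = k * k ^ (4 * K - 1) := by
    rw [← pow_succ']
    congr 1
    omega
  have h5 := Nat.mul_le_mul_right (k ^ (4 * K - 1)) (show 4 * k ≤ 4 * K by omega)
  rw [mul_assoc, ← h4] at h5
  simp only [Nat.cast_id, mul_one, Nat.succ_eq_add_one] at h1 h2
  omega

theorem count (n Q : ℕ) (hQ : 0 < Q) : 3 * (Q ^ (4 * Q ^ n)) ^ n <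
    4 * Fintype.card {c : Fin (4 * Q ^ n) → Fin n → Fin Q // ¬ ∀ j, ¬ ∀ i, (c j i).1 = 0} := by
  have h1 := num (Fintype.card_subtype_lt (p := fun v : Fin n → Fin Q => ¬ ∀ i, (v i).1 = 0)
    (x := fun _ => ⟨0, hQ⟩) (by simp))
  have h2 := Fintype.card_congr (Equiv.subtypePiEquivPi (α := Fin (4 * Q ^ n))
    (p := fun _ (v : Fin n → Fin Q) => ¬ ∀ i, (v i).1 = 0))
  rw [Fintype.card_subtype_compl, h2, ← pow_mul, mul_comm _ n, pow_mul]
  simp only [Fintype.card_pi, Finset.prod_const, Finset.card_univ, Fintype.card_fin] at h1 ⊢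
  omega

end Code

open Code in
theorem codeStmt : CodeStmt := by
  intro n
  have hQ : 0 < 2 ^ (n + 1) := by positivity
  have hQ' : n + 2 ≤ 2 ^ (n + 1) := Nat.lt_two_pow_self
  have hc := count n _ hQ
  have hM : 0 < 4 * (2 ^ (n + 1)) ^ n := by positivity
  generalize 4 * (2 ^ (n + 1)) ^ n = M at hc hM
  let F := GaloisField 2 ((n + 1) * M)
  let _ : Fintype F := Fintype.ofFinite F
  have hq : Fintype.card F = (2 ^ (n + 1)) ^ M := by
    rw [← Nat.card_eq_fintype_card, GaloisField.card 2 _ (by positivity), pow_mul]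
  refine ⟨F, inferInstance, inferInstance, ?_⟩
  rw [hq]
  refine hc.trans_le (Nat.mul_le_mul_left 4 ?_)
  let e : {c : Fin M → Fin n → Fin (2 ^ (n + 1)) // ¬ ∀ j, ¬ ∀ i, (c j i).1 = 0} → Fin n → ℕ :=
    fun c i => finFunctionFinEquiv fun j => c.1 j i
  have h1 : ∀ c i, e c i < Fintype.card F := fun c i => hq ▸ Fin.is_lt _
  have h2 : ∀ c, (fun x : Fin n → F => ∏ i, x i ^ e c i) ∈ LineCode F n := fun c => by
    obtain ⟨j, hj⟩ := not_forall_not.1 c.2
    refine mono_mem (A := (2 ^ (n + 1)) ^ j.1) (b := (n + 1) * (M - j - 1)) ?_ hQ' (h1 c) fun i => ?_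
    · rw [hq, pow_mul, ← pow_succ, ← pow_add]
      congr 1
      omega
    · rw [← hj i, ← finFunctionFinEquiv_symm_apply_val, Equiv.symm_apply_apply]
  exact LinearIndependent.fintype_card_le_finrank (b := fun c => (⟨_, h2 c⟩ : LineCode F n))
    (LinearIndependent.of_comp (LineCode F n).subtype (indep e (fun c c' h => Subtype.ext
      (funext fun j => funext fun i => congrFun (finFunctionFinEquiv.injective
        (Fin.ext (congrFun h i))) j)) h1))

end Pool.Agent.NS
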