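import Pool.Agent.Lib.MP_b138e1_al.NS.Defs

/-!
The dimension count that excludes sofic approximations, and residually finite implies sofic.
-/

set_option autoImplicit false

namespace Pool.Agent.NS

open Module

namespace Count

variable {F O : Type} [Field F] [Fintype O]

/-- Functions invariant under a map with few fixed points form a space of dimension at most
about one half of the number of points. -/
theorem pairing (s : O → O) (B : Finset O) (hs : ∀ x, x ∉ B → s x ≠ x)
    (W : Submodule F (O → F)) (hW : ∀ f ∈ W, ∀ x, x ∉ B → f (s x) = f x) :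
    2 * finrank F W ≤ Fintype.card O + B.card := by
  classical
  let ev : O → Dual F W := fun x => (LinearMap.proj x).comp W.subtype
  let I : Finset (Dual F W) := Finset.univ.image ev
  have h1 : finrank F W ≤ I.card := by
    have h2 : Function.Injective (LinearMap.pi fun e : I => e.1) := by
      rw [injective_iff_map_eq_zero]
      intro f hf
      exact Subtype.ext (funext fun x =>
        congrFun hf ⟨ev x, Finset.mem_image_of_mem _ (Finset.mem_univ x)⟩)
    simpa using LinearMap.finrank_le_finrank_of_injective h2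
  have h3 : (Finset.univ : Finset O).card = ∑ e ∈ I, (Finset.univ.filter fun x => ev x = e).card :=
    Finset.card_eq_sum_card_image ev _
  have h4 : B.card = ∑ e ∈ I, (B.filter fun x => ev x = e).card :=
    Finset.card_eq_sum_card_fiberwise fun x _ => Finset.mem_image_of_mem _ (Finset.mem_univ x)
  rw [← Finset.card_univ, h3, h4, ← Finset.sum_add_distrib]
  refine (Nat.mul_le_mul_left 2 h1).trans ?_
  rw [mul_comm, ← smul_eq_mul]
  refine Finset.card_nsmul_le_sum _ _ _ fun e he => ?_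
  obtain ⟨x, -, rfl⟩ := Finset.mem_image.1 he
  by_cases hx : x ∈ B
  · have h5 : 0 < (Finset.univ.filter fun y => ev y = ev x).card :=
      Finset.card_pos.2 ⟨x, by simp⟩
    have h6 : 0 < (B.filter fun y => ev y = ev x).card := Finset.card_pos.2 ⟨x, by simp [hx]⟩
    omega
  · have h5 : 1 < (Finset.univ.filter fun y => ev y = ev x).card :=
      Finset.one_lt_card.2 ⟨s x, by
        simp only [Finset.mem_filter, Finset.mem_univ, true_and]
        exact LinearMap.ext fun f => hW f.1 f.2 x hx, x, by simp, hs x hx⟩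
    omega

/-- The codimension of the functions that lie in the local code on every free orbit. -/
theorem codim {U : Type} [AddCommGroup U] [Fintype U] (L : Submodule F (U → F))
    (hL : ∀ f ∈ L, ∀ v, (fun u => f (u + v)) ∈ L) (o : O → U → O) (Good : Set O)
    (hi : ∀ x ∈ Good, Function.Injective (o x))
    (ho : ∀ x ∈ Good, ∀ u v, o (o x v) u = o x (u + v)) :
    ∃ r : ℕ, r * Fintype.card U ≤ Fintype.card O ∧ ∀ τ : O → O, ∃ W : Submodule F (O → F),
      (∀ f ∈ W, ∀ x ∈ Good, (fun u => f (τ (o x u))) ∈ L) ∧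
      Fintype.card O ≤ finrank F W + r * finrank F ((U → F) ⧸ L) := by
  classical
  let Orb : Type := {ω : Set O // ∃ x ∈ Good, Set.range (o x) = ω}
  have : Fintype Orb := Fintype.ofFinite _
  have hc : ∀ ω : Orb, ∃ x ∈ Good, Set.range (o x) = ω.1 := fun ω => ω.2
  choose c hc hc' using hc
  have hr : ∀ x ∈ Good, ∀ v, Set.range (o (o x v)) = Set.range (o x) := fun x hx v => by
    ext y
    exact ⟨fun ⟨u, hu⟩ => ⟨u + v, by rw [← ho x hx, hu]⟩,
      fun ⟨u, hu⟩ => ⟨u - v, by rw [ho x hx, sub_add_cancel, hu]⟩⟩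
  refine ⟨Fintype.card Orb, ?_, fun τ => ?_⟩
  · rw [← Fintype.card_prod]
    refine Fintype.card_le_of_injective (fun p => o (c p.1) p.2) ?_
    rintro ⟨ω, u⟩ ⟨ω', u'⟩ h
    have h1 : ω = ω' := Subtype.ext (by
      rw [← hc' ω, ← hc' ω', ← hr _ (hc ω) u, ← hr _ (hc ω') u']
      exact congrArg (fun y => Set.range (o y)) h)
    subst h1
    exact Prod.ext rfl (hi _ (hc ω) h)
  · let Λ : (O → F) →ₗ[F] Orb → (U → F) ⧸ L :=
      LinearMap.pi fun ω => L.mkQ.comp (LinearMap.funLeft F F fun u => τ (o (c ω) u))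
    refine ⟨LinearMap.ker Λ, fun f hf x hx => ?_, ?_⟩
    · let ω : Orb := ⟨_, x, hx, rfl⟩
      have h1 : (fun u => f (τ (o (c ω) u))) ∈ L :=
        (Submodule.Quotient.mk_eq_zero L).1 (congrFun (LinearMap.mem_ker.1 hf) ω)
      have h2 : o x 0 ∈ Set.range (o (c ω)) := by
        rw [hc' ω]
        exact ⟨0, rfl⟩
      obtain ⟨v, hv⟩ := h2
      have h3 : ∀ u, o x u = o (c ω) (u + v) := fun u => by
        rw [← ho _ (hc ω), hv, ho x hx, add_zero]
      simp only [h3]
      exact hL _ h1 v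
    · have h1 := Λ.finrank_range_add_finrank_ker
      have h2 := (LinearMap.range Λ).finrank_le
      rw [finrank_pi_fintype, Finset.sum_const, Finset.card_univ, smul_eq_mul] at h2
      rw [finrank_fintype_fun_eq_card] at h1
      omega

end Count

theorem countStmt : CountStmt := by
  classical
  rintro F _ _ n Γ _ hD ⟨ι, t, z, X, J, J', _, _, y, y', d, d', hι, hX, hC⟩ hS
  let e : (Fin n → F) → Γ := fun u => ι (Multiplicative.ofAdd u)
  have he : ∀ u v, e (u + v) = e u * e v := fun u v => by simp only [e, ofAdd_add, map_mul]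
  obtain ⟨T, h1, ht, hz, hXT, hTe, hy, hy', hey⟩ : ∃ T : Finset Γ, 1 ∈ T ∧ t ∈ T ∧ z ∈ T ∧ X ∈ T ∧
      (∀ u, e u ∈ T) ∧ (∀ j, y j ∈ T) ∧ (∀ j, y' j ∈ T) ∧ ∀ u j, e u * y' j ∈ T :=
    ⟨{1, t, z, X} ∪ Finset.univ.image e ∪ Finset.univ.image y ∪ Finset.univ.image y' ∪
      Finset.univ.image fun p : (Fin n → F) × J' => e p.1 * y' p.2, by simp, by simp, by simp,
      by simp, by simp, by simp, by simp, fun u j => Finset.mem_union_right _
        (Finset.mem_image_of_mem _ (Finset.mem_univ (u, j)))⟩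
  obtain ⟨Q, hQ⟩ : ∃ Q, Q = Fintype.card (Fin n → F) := ⟨_, rfl⟩
  obtain ⟨M, hM⟩ : ∃ M, M = T.card * (T.card * T.card + T.card) * Q + 1 := ⟨_, rfl⟩
  have hM0 : 0 < M := by omega
  have hM1 : (0 : ℝ) < M := by exact_mod_cast hM0
  obtain ⟨N, hN, φ, hφ, hmul, hfix⟩ := hS T (M : ℝ)⁻¹ (inv_pos.2 hM1)
  have hm : ∀ k : ℕ, (k : ℝ) < (M : ℝ)⁻¹ * N → k ≤ N / M := fun k hk => by
    rw [inv_mul_eq_div, lt_div_iff₀ hM1] at hk
    rw [Nat.le_div_iff_mul_le hM0]
    exact_mod_cast hk.le
  obtain ⟨B0, hB0, hB1, hB2⟩ : ∃ B0 : Finset (Fin N),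
      B0.card ≤ (T.card * T.card + T.card) * (N / M) ∧
      (∀ i, i ∉ B0 → ∀ g ∈ T, ∀ h ∈ T, φ (g * h) i = φ g (φ h i)) ∧
      ∀ i, i ∉ B0 → ∀ g ∈ T, g ≠ 1 → φ g i ≠ i := by
    refine ⟨((T ×ˢ T).biUnion fun p => Finset.univ.filter fun i => φ (p.1 * p.2) i ≠ φ p.1 (φ p.2 i))
      ∪ (T.erase 1).biUnion fun g => Finset.univ.filter fun i => φ g i = i, ?_, ?_, ?_⟩
    · rw [add_mul]
      refine (Finset.card_union_le _ _).trans (add_le_add ?_ ?_)
      · rw [← Finset.card_product]
        exact Finset.card_biUnion_le_card_mul _ _ _ fun p hp =>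
          hm _ (hmul _ (Finset.mem_product.1 hp).1 _ (Finset.mem_product.1 hp).2)
      · exact (Finset.card_biUnion_le_card_mul _ _ _ fun g hg =>
          hm _ (hfix _ (Finset.mem_of_mem_erase hg) (Finset.ne_of_mem_erase hg))).trans
            (Nat.mul_le_mul_right _ Finset.card_erase_le)
    · intro i hi g hg h hh
      by_contra hne
      exact hi (Finset.mem_union_left _ (Finset.mem_biUnion.2
        ⟨(g, h), Finset.mem_product.2 ⟨hg, hh⟩, Finset.mem_filter.2 ⟨Finset.mem_univ _, hne⟩⟩))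
    · exact fun i hi g hg hg1 h => hi (Finset.mem_union_right _ (Finset.mem_biUnion.2
        ⟨g, Finset.mem_erase.2 ⟨hg1, hg⟩, Finset.mem_filter.2 ⟨Finset.mem_univ _, h⟩⟩))
  obtain ⟨B, hB3, hB4⟩ : ∃ B : Finset (Fin N), B.card ≤ T.card * B0.card ∧
      ∀ i, φ z i ∉ B → ∀ g ∈ T, φ g i ∉ B0 := by
    refine ⟨T.biUnion fun g => B0.image fun x => φ z ((φ g).symm x),
      Finset.card_biUnion_le_card_mul _ _ _ fun g _ => Finset.card_image_le, ?_⟩
    exact fun i hi g hg h => hi (Finset.mem_biUnion.2 ⟨g, hg, Finset.mem_image.2 ⟨_, h, by simp⟩⟩)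
  have ho : ∀ x ∈ {x | x ∉ B0}, ∀ u v, φ (e u) (φ (e v) x) = φ (e (u + v)) x :=
    fun x hx u v => by rw [he, hB1 x hx _ (hTe u) _ (hTe v)]
  obtain ⟨r, hr, hW⟩ := Count.codim (LineCode F n)
    (fun f hf v x d => by simpa only [add_right_comm] using hf (x + v) d)
    (fun x u => φ (e u) x) {x | x ∉ B0} (fun x hx u v h => by
      have h2 := ho x hx v (u - v)
      rw [add_sub_cancel] at h2
      by_contra h3
      refine hB2 x hx _ (hTe (u - v)) (fun h4 => h3 ?_) ((φ (e v)).injective (h2.trans h))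
      exact sub_eq_zero.1 (Multiplicative.ofAdd.injective (hι (h4.trans (map_one ι).symm)))) ho
  obtain ⟨W1, hW1, hd1⟩ := hW id
  obtain ⟨W2, hW2, hd2⟩ := hW (φ t)
  have hP := Count.pairing (φ X) B (fun x hx => by
      obtain ⟨i, rfl⟩ := (φ z).surjective x
      exact hB2 _ (hB4 i hx z hz) X hXT hX) (W1 ⊓ W2) (fun f hf x hx => by
      obtain ⟨i, rfl⟩ := (φ z).surjective x
      have hi : i ∉ B0 := by simpa [hφ] using hB4 i hx 1 h1
      have h2 := hC fun g => f (φ g i)
      have h3 : ∀ j, ∑ a : F, f (φ (ι (Multiplicative.ofAdd (a • d j)) * y j) i) = 0 := fun j => by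
        refine Eq.trans (Finset.sum_congr rfl fun a _ => ?_)
          (hW1 f hf.1 _ (hB4 i hx _ (hy j)) 0 (d j))
        rw [zero_add]
        exact congrArg f (hB1 i hi _ (hTe _) _ (hy j))
      have h4 : ∀ j, ∑ a : F, f (φ (t * (ι (Multiplicative.ofAdd (a • d' j)) * y' j)) i) = 0 :=
        fun j => by
        refine Eq.trans (Finset.sum_congr rfl fun a _ => ?_)
          (hW2 f hf.2 _ (hB4 i hx _ (hy' j)) 0 (d' j))
        rw [zero_add]
        exact congrArg f ((hB1 i hi _ ht _ (hey _ j)).trans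
          (congrArg (φ t) (hB1 i hi _ (hTe _) _ (hy' j))))
      simp only [h3, h4, Finset.sum_const_zero, zero_add] at h2
      rw [← hB1 i hi X hXT z hz, h2])
  have h5 := Submodule.finrank_sup_add_finrank_inf_eq W1 W2
  have h6 := (W1 ⊔ W2).finrank_le
  have h7 := (LineCode F n).finrank_quotient_add_finrank
  have h8 : Fintype.card F ^ n = Q := by simp [hQ]
  rw [finrank_fintype_fun_eq_card] at h6 h7
  rw [Fintype.card_fin] at hd1 hd2 hr h6 hP
  rw [← hQ] at hr h7
  rw [h8] at hD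
  generalize finrank F (((Fin n → F) → F) ⧸ LineCode F n) = K at hd1 hd2 h7
  have h9 : N ≤ B.card + 4 * (r * K) := by omega
  have h10 : 4 * K + 1 ≤ Q := by omega
  have h11 : N ≤ B.card * Q := by
    nlinarith [Nat.mul_le_mul_right Q h9, Nat.mul_le_mul_left (4 * K) hr,
      Nat.mul_le_mul_right N h10]
  have h12 := Nat.div_mul_le_self N M
  have h13 := Nat.mul_le_mul_right Q (hB3.trans (Nat.mul_le_mul_left _ hB0))
  generalize N / M = m at h12 h13
  have h14 : m = 0 := by
    rw [hM] at h12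
    nlinarith
  rw [h14] at h13
  simp only [mul_zero, zero_mul] at h13
  omega

theorem rfStmt : RFStmt := by
  classical
  intro Γ _ hR T ε hε
  choose H hH using fun g : T.erase 1 => hR g.1 (Finset.ne_of_mem_erase g.2)
  let K : Subgroup Γ := ⨅ g, H g
  have : K.Normal := Subgroup.normal_iInf_normal fun g => (hH g).1
  have : K.FiniteIndex := Subgroup.finiteIndex_iInf fun g => (hH g).2.1
  have : Fintype (Γ ⧸ K) := Fintype.ofFinite _
  let e := Fintype.equivFin (Γ ⧸ K)
  have h0 : 0 < Fintype.card (Γ ⧸ K) := Fintype.card_pos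
  have h1 : 0 < ε * (Fintype.card (Γ ⧸ K) : ℝ) := mul_pos hε (by exact_mod_cast h0)
  refine ⟨_, h0, fun g => e.permCongr (Equiv.mulLeft (g : Γ ⧸ K)), ?_, fun g _ h _ => ?_,
    fun g hg hg1 => ?_⟩
  · ext i
    simp
  · rw [Finset.filter_eq_empty_iff.2 fun i _ => by simp]
    simpa using h1
  · rw [Finset.filter_eq_empty_iff.2 fun i _ h => ?_]
    · simpa using h1
    · have h2 : (g : Γ ⧸ K) * e.symm i = e.symm i := e.injective (by simpa using h)
      have h3 : g ∈ K := (QuotientGroup.eq_one_iff g).1 (mul_eq_right.1 h2)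
      exact (hH ⟨g, Finset.mem_erase.2 ⟨hg1, hg⟩⟩).2.2 (Subgroup.mem_iInf.1 h3 _)

end Pool.Agent.NS
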