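import Pool.Agent.Lib.MP_b138e1_al.NS.Defs

/-! Small finite groups with two abelian subgroups of large girth. -/

set_option autoImplicit false

namespace Pool.Agent.NS

namespace Graph

variable {F : Type} [Field F] {n : ℕ}

/-- The shift matrix restricted to the rows of one parity. -/
def N (F : Type) [Field F] (n : ℕ) (b : Bool) : Matrix (Fin n) (Fin n) F :=
  fun i j => if j.val = i.val + 1 ∧ decide (Even i.val) = b then 1 else 0

theorem N_mul_eq (b : Bool) (M : Matrix (Fin n) (Fin n) F) (i k j : Fin n)
    (hk : k.val = i.val + 1) (hb : decide (Even i.val) = b) : (N F n b * M) i j = M k j := by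
  rw [Matrix.mul_apply, Finset.sum_eq_single k]
  · simp only [N, hk, hb, and_self, if_true, one_mul]
  · intro k' _ hne
    have : ¬ (k'.val = i.val + 1 ∧ decide (Even i.val) = b) := fun h =>
      hne (Fin.ext (h.1.trans hk.symm))
    simp only [N, this, if_false, zero_mul]
  · intro h
    exact absurd (Finset.mem_univ k) h

theorem N_mul_zero (b : Bool) (M : Matrix (Fin n) (Fin n) F) (i j : Fin n)
    (h : ∀ k : Fin n, k.val = i.val + 1 → decide (Even i.val) = b → M k j = 0) :
    (N F n b * M) i j = 0 := by
  rw [Matrix.mul_apply]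
  refine Finset.sum_eq_zero fun k _ => ?_
  by_cases hk : k.val = i.val + 1 ∧ decide (Even i.val) = b
  · rw [h k hk.1 hk.2, mul_zero]
  · simp only [N, hk, if_false, zero_mul]

theorem N_sq (b : Bool) : N F n b * N F n b = 0 := by
  ext i j
  refine N_mul_zero b _ i j fun k hk hb => ?_
  have : ¬ (j.val = k.val + 1 ∧ decide (Even k.val) = b) := by
    rintro ⟨-, h⟩
    rw [← hb, hk, decide_eq_decide, Nat.even_add_one] at h
    exact not_iff_self h
  simp only [N, this, if_false]

theorem mul_aux (b : Bool) (a a' : F) :
    (1 + a • N F n b) * (1 + a' • N F n b) = 1 + (a + a') • N F n b := by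
  rw [add_mul, mul_add, mul_add, one_mul, one_mul, mul_one, Matrix.smul_mul, Matrix.mul_smul, N_sq,
    smul_zero, smul_zero, add_zero, add_smul, add_assoc, add_comm (a' • N F n b)]

/-- The elementary unit. -/
def U (b : Bool) (a : F) : (Matrix (Fin n) (Fin n) F)ˣ where
  val := 1 + a • N F n b
  inv := 1 + (-a) • N F n b
  val_inv := by rw [mul_aux, add_neg_cancel, zero_smul, add_zero]
  inv_val := by rw [mul_aux, neg_add_cancel, zero_smul, add_zero]

/-- The two one-parameter subgroups. -/
def al (F : Type) [Field F] (n : ℕ) (b : Bool) :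
    Multiplicative F →* (Matrix (Fin n) (Fin n) F)ˣ where
  toFun a := U b a.toAdd
  map_one' := Units.ext (by simp [U])
  map_mul' a a' := Units.ext (by
    simp only [U, toAdd_mul, Units.val_mul]
    exact (mul_aux b _ _).symm)

/-- The product of a word. -/
def P (n : ℕ) (l : List (Bool × F)) : Matrix (Fin n) (Fin n) F :=
  ((l.map fun x => al F n x.1 (Multiplicative.ofAdd x.2)).prod : (Matrix (Fin n) (Fin n) F)ˣ)

theorem P_nil : P n ([] : List (Bool × F)) = 1 := rfl

theorem P_cons (x : Bool × F) (l : List (Bool × F)) (i j : Fin n) :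
    P n (x :: l) i j = P n l i j + x.2 * (N F n x.1 * P n l) i j := by
  have e : P n (x :: l) = (1 + x.2 • N F n x.1) * P n l := by
    simp only [P, List.map_cons, List.prod_cons, Units.val_mul]
    rfl
  rw [e, add_mul, one_mul, Matrix.smul_mul, Matrix.add_apply, Matrix.smul_apply, smul_eq_mul]

theorem P_zero (l : List (Bool × F)) : ∀ i j : Fin n, i.val + l.length < j.val → P n l i j = 0 := by
  induction l with
  | nil =>
    intro i j h
    have : i ≠ j := fun e => by subst e; simp at h
    rw [P_nil, Matrix.one_apply_ne this]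
  | cons x l ih =>
    intro i j h
    rw [List.length_cons] at h
    rw [P_cons, ih i j (by omega), N_mul_zero _ _ _ _ fun k hk _ => ih k j (by omega), mul_zero,
      add_zero]

theorem P_ne (l : List (Bool × F)) : (∀ x ∈ l, x.2 ≠ 0) → l.IsChain (fun x y => x.1 ≠ y.1) →
    ∀ i j : Fin n, j.val = i.val + l.length → (∀ x ∈ l.head?, decide (Even i.val) = x.1) →
      P n l i j ≠ 0 := by
  induction l with
  | nil =>
    intro _ _ i j h _
    have : i = j := Fin.ext (by simpa using h.symm)
    subst this
    rw [P_nil, Matrix.one_apply_eq]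
    exact one_ne_zero
  | cons x l ih =>
    intro h0 hc i j h hb
    rw [List.length_cons] at h
    have hb' : decide (Even i.val) = x.1 := hb x (by simp)
    have hk : i.val + 1 < n := by have := j.isLt; omega
    rw [List.isChain_cons] at hc
    rw [P_cons, P_zero l i j (by omega), zero_add, N_mul_eq _ _ i ⟨i.val + 1, hk⟩ j rfl hb']
    refine mul_ne_zero (h0 x (by simp)) (ih (fun y hy => h0 y (by simp [hy])) hc.2 _ j
      (by simp only; omega) fun y hy => ?_)
    have h1 := hc.1 y hy
    rw [← hb'] at h1
    simp only [Nat.even_add_one, decide_not]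
    revert h1
    cases decide (Even i.val) <;> cases y.1 <;> simp

end Graph

open _root_.Pool.Agent.NS.Graph in
theorem graphStmt : GraphStmt := by
  intro g
  refine ⟨(g + 2) * (g + 2), fun F _ _ => ?_⟩
  classical
  refine ⟨(Matrix (Fin (g + 2)) (Fin (g + 2)) F)ˣ, inferInstance, inferInstance, al F (g + 2), ?_,
    ?_⟩
  · refine (Fintype.card_le_of_injective Units.val Units.val_injective).trans (le_of_eq ?_)
    change Fintype.card (Fin (g + 2) → Fin (g + 2) → F) = _
    rw [Fintype.card_fun, Fintype.card_fun, Fintype.card_fin, ← pow_mul]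
  · intro l hne hl h0 hc h1
    obtain ⟨x, l', rfl⟩ := List.exists_cons_of_ne_nil hne
    have hP : P (g + 2) (x :: l') = 1 := by rw [P, h1, Units.val_one]
    have key : ∀ i : ℕ, i ≤ 1 → decide (Even i) = x.1 → False := fun i hi hb => by
      have h := P_ne (n := g + 2) (x :: l') h0 hc ⟨i, by omega⟩
        ⟨i + (x :: l').length, by omega⟩ rfl (fun y hy => by
          have : x = y := by simpa using hy
          rw [← this]; exact hb)
      rw [hP, Matrix.one_apply_ne] at h
      · exact h rfl
      · intro e
        have := congrArg Fin.val e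
        simp at this
    cases hx : x.1
    · exact key 1 le_rfl (by rw [hx]; decide)
    · exact key 0 zero_le_one (by rw [hx]; decide)

end Pool.Agent.NS
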