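import Pool.Agent.Lib.MP_b138e1_al.NS.Walk
import Pool.Agent.Lib.MP_5bec91_al.Bu.Line
import Pool.Agent.Lib.MP_5bec91_al.Bu.QGeo
import Pool.Agent.Lib.MP_5bec91_al.Bu.Wind
import Pool.Agent.Lib.MP_5bec91_al.Bu.Step

/-! The small cancellation quotient and the obstructing configuration. -/

set_option autoImplicit false

namespace Pool.Agent.NS

open Pool.Agent.Bu Pool.Agent.Bu.Base MulAction

section Prop'
variable {G C : Type} [Group G] [MulAction G C] (S : CS G G C)

theorem ch_bound {M : ℕ}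
    (hM : ∀ c a b, a ∈ S.Y c → b ∈ S.Y c → ∃ x ∈ S.H c, S.D.d a (x • b) ≤ M) {x y : G} {n : ℕ}
    (h : S.Ch Set.univ x y n) : ∃ m ∈ S.N, S.D.d x (m • y) ≤ n * (M + 1) := by
  induction h with
  | seg x y => exact ⟨1, S.N.one_mem, by rw [one_smul]; exact Nat.le_mul_of_pos_right _ (by omega)⟩
  | jump x a b y c n _ ha hb _ ih =>
    obtain ⟨m, hm, e⟩ := ih
    obtain ⟨k, hk, e'⟩ := hM c a b ha hb
    refine ⟨k * m, S.N.mul_mem (S.H_le_N c hk) hm, ?_⟩
    have h1 := S.geom.iso k b (m • y)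
    have h2 := S.D.tri x a ((k * m) • y)
    have h3 := S.D.tri a (k • b) ((k * m) • y)
    rw [← mul_smul] at h1
    have h4 := S.θ_pos
    have h5 : S.D.d x a ≤ S.D.d x a * (M + 1) := Nat.le_mul_of_pos_right _ (by omega)
    have h6 : M + 1 ≤ 1000 * S.θ * (M + 1) := Nat.le_mul_of_pos_left _ (by omega)
    rw [add_mul, add_mul]
    omega

theorem quot_proper {M : ℕ}
    (hM : ∀ c a b, a ∈ S.Y c → b ∈ S.Y c → ∃ x ∈ S.H c, S.D.d a (x • b) ≤ M)
    (hb : ∀ R : ℕ, {x : G | S.D.d 1 x ≤ R}.Finite) (R : ℕ) :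
    {v : G ⧸ S.N | (StepA.qs S).Db.d 1 v ≤ R}.Finite := by
  refine ((hb (R * (M + 1))).image (QuotientGroup.mk : G → G ⧸ S.N)).subset ?_
  intro v hv
  obtain ⟨y, rfl⟩ := QuotientGroup.mk_surjective v
  obtain ⟨n, hn, e⟩ := StepA.dq_ex S 1 y
  obtain ⟨m, hm, e'⟩ := ch_bound S hM (S.dh_ch 1 (n • y))
  refine ⟨m • n • y, e'.trans (Nat.mul_le_mul_right _ ?_), ?_⟩
  · rw [e]; exact hv
  · rw [StepA.mk_N S hm, StepA.mk_N S hn]

end Prop'

namespace Dat
variable {F H A : Type} [Field F] [Group H] [CommGroup A] [DecidableEq A]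
  (P : Dat F H A (10 ^ 11))

theorem geo00 : (DD A).Geo 0 := fun x y t ht => by
  obtain ⟨z, h1, h2⟩ := geo0 x y t ht
  exact ⟨z, h1, by omega, by omega⟩

/-- The cone system. -/
noncomputable def cs (hT : TreeStmt) : CS (GG A) (GG A) P.Cn where
  D := DD A
  δ := 1
  θ := 10
  Y := P.Y
  H c := stabilizer (GG A) c
  geom := geom
  hθ := le_rfl
  ne := P.Y_ne
  Yeq := P.Y_smul
  gate := (hT (DD A) P.Y hyp0 geo00 P.Y_ne P.convex P.overlap).1
  ovl := (hT (DD A) P.Y hyp0 geo00 P.Y_ne P.convex P.overlap).2.1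
  behr := (hT (DD A) P.Y hyp0 geo00 P.Y_ne P.convex P.overlap).2.2
  Hfix _ _ h := h
  Hconj x c h hh := by
    rw [mem_stabilizer_iff] at hh ⊢
    rw [mul_smul, mul_smul, inv_smul_smul, hh]
  spin c h hh h1 b hb := P.spin c h hh h1 b hb

/-- The quotient: hyperbolic, short elements survive, and frames exist. -/
theorem quot [Finite H] [Finite A] (hT : TreeStmt) (hW : WordStmt) :
    ∃ (Γ : Type) (_ : Group Γ) (φ : GG A →* Γ) (p : Bool × H → Γ), HypG Γ ∧
      (∀ x, (DD A).d 1 x ≤ 2 → φ x = 1 → x = 1) ∧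
      (∀ i h a, p (i, h * P.al i a) = p (i, h) * φ (SemidirectProduct.inr (P.mv i h a))) ∧
      (∀ h, p (false, h) = p (true, h) * φ (SemidirectProduct.inl (FreeGroup.of (P.τ h)))) := by
  let S := P.cs hT
  have gr : S.Gr := windStmt S
  have el : Elec S := elecStmt hypLib S
  have li : LiftLib (StepA.qs S) := liftStmt hypLib (StepA.qs S) gr el
  have qg : QGeo (StepA.qs S) := qgeoStmt hypLib (StepA.qs S) el li
  obtain ⟨M, hM⟩ := P.cobdd
  obtain ⟨p, hp⟩ := P.frames
  have key : ∀ (s s' : Bool × H) (x : GG A), P.Rel (p s, s) (x, s') →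
      QuotientGroup.mk' S.N (p s') = QuotientGroup.mk' S.N x := by
    intro s s' x h
    obtain ⟨c, hc⟩ := hp s s' x h
    have h1 : QuotientGroup.mk' S.N (p s' * x⁻¹) = 1 :=
      (QuotientGroup.eq_one_iff _).2 (S.H_le_N c hc)
    rwa [map_mul, map_inv, mul_inv_eq_one] at h1
  refine ⟨GG A ⧸ S.N, inferInstance, QuotientGroup.mk' S.N,
    fun s => QuotientGroup.mk' S.N (p s), ?_, ?_, ?_, ?_⟩
  · exact hW _ (StepA.qs S).Db _ qg.geom (quot_proper S hM ball_fin)
  · intro x hx h1
    refine li.small 1 x ((QuotientGroup.eq_one_iff _).1 h1) fun c => ?_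
    have h2 := S.ang_le_d c 1 (x • 1)
    have h3 : S.d 1 (x • 1) ≤ 2 := by rw [smul_eq_mul, mul_one]; exact hx
    have h4 : S.θ = 10 := rfl
    change 10 * S.ang c 1 (x • 1) ≤ 9 * 10 ^ 10 * S.θ
    omega
  · intro i h a
    rw [← map_mul]
    exact key (i, h) _ _ ((P.rel_refl (p (i, h), (i, h))).sl a)
  · intro h
    rw [← map_mul]
    exact key (true, h) _ _ (P.rel_refl (p (true, h), (true, h))).fl

end Dat

/-- Sums over a finite group, coset by coset. -/
theorem sum_coset {F H : Type} [Field F] [Fintype F] [Group H] [Fintype H]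
    (β : Multiplicative F →* H) (hβ : Function.Injective β) [Fintype (H ⧸ β.range)]
    (Ψ : H → F) :
    ∑ h, Ψ h = ∑ j : H ⧸ β.range, ∑ a : F, Ψ (j.out * β (Multiplicative.ofAdd a)) := by
  rw [← Fintype.sum_prod_type']
  symm
  refine Function.Bijective.sum_comp
    (e := fun x : (H ⧸ β.range) × F => x.1.out * β (Multiplicative.ofAdd x.2)) ⟨?_, ?_⟩ Ψ
  · rintro ⟨j, a⟩ ⟨j', a'⟩ h
    simp only at h
    have h1 : j = j' := by
      have := congrArg (QuotientGroup.mk : H → H ⧸ β.range) h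
      rwa [QuotientGroup.mk_mul_of_mem _ (MonoidHom.mem_range.2 ⟨_, rfl⟩),
        QuotientGroup.mk_mul_of_mem _ (MonoidHom.mem_range.2 ⟨_, rfl⟩),
        QuotientGroup.out_eq', QuotientGroup.out_eq'] at this
    subst h1
    have h2 := hβ (mul_left_cancel h)
    simpa using h2
  · intro h
    obtain ⟨⟨_, a, rfl⟩, e⟩ := QuotientGroup.mk_out_eq_mul β.range h
    refine ⟨(QuotientGroup.mk h, -a.toAdd), ?_⟩
    simp only at e ⊢
    rw [e]
    simp [ofAdd_neg]

/-- A hyperbolic group carrying the configuration. -/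
theorem exists_conf (hT : TreeStmt) (hW : WordStmt) {F H : Type} [Field F] [Fintype F] [Group H]
    [Fintype H] (α : Bool → (Multiplicative F →* H)) (c : ℕ)
    (hc : Fintype.card H ≤ Fintype.card F ^ c) (hg : Girth α (10 ^ 11)) :
    ∃ (Γ : Type) (_ : Group Γ), HypG Γ ∧ Conf F (c + 1) Γ := by
  classical
  obtain ⟨j⟩ : Nonempty (H ↪ (Fin c → F)) :=
    Function.Embedding.nonempty_of_card_le (by simpa using hc)
  let A := Multiplicative (Fin (c + 1) → F) × Multiplicative (ZMod 2)
  let dir : Bool → H → Fin (c + 1) → F := fun i h =>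
    Fin.cons 1 (j (QuotientGroup.mk h : H ⧸ (α i).range).out)
  let ω : Multiplicative (ZMod 2) := Multiplicative.ofAdd 1
  let P : Dat F H A (10 ^ 11) :=
    { α := α
      mv := fun i h a => (Multiplicative.ofAdd (a • dir i h), 1)
      τ := fun h => (1, if h = 1 then ω else 1)
      ρ := (MonoidHom.inl _ _).comp (MonoidHom.fst _ _)
      mv_add := fun i h a b => by simp [A, add_smul, ofAdd_add]
      mv_inv := fun i h a => by
        simp only [dir]
        rw [QuotientGroup.mk_mul_of_mem _ (MonoidHom.mem_range.2 ⟨_, rfl⟩)]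
      ρτ := fun _ => rfl
      ρmv := fun _ _ _ => rfl
      rig := by
        intro i h h' a a' e ha
        have e1 : a • dir i h = a' • dir i h' := Multiplicative.ofAdd.injective (congrArg Prod.fst e)
        have e2 : a = a' := by simpa [dir] using congrFun e1 0
        subst e2
        refine ⟨rfl, ?_⟩
        have e3 : dir i h = dir i h' := smul_right_injective _ ha e1
        have e4 := j.injective (funext fun k => congrFun e3 k.succ)
        have e5 : (QuotientGroup.mk h : H ⧸ (α i).range) = QuotientGroup.mk h' :=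
          Quotient.out_injective e4
        obtain ⟨b, hb⟩ := QuotientGroup.eq.1 e5
        exact ⟨b.toAdd, by simp [hb]⟩
      girth := hg
      big := by norm_num }
  obtain ⟨Γ, _, φ, p, h1, h2, h3, h4⟩ := P.quot hT hW
  have hinj : ∀ i, Function.Injective (α i) := fun i =>
    (injective_iff_map_eq_one _).2 fun a ha => by
      have : a.toAdd = 0 := P.al_inj (i := i) ha
      simpa using this
  let ι : Multiplicative (Fin (c + 1) → F) →* Γ :=
    φ.comp (SemidirectProduct.inr.comp (MonoidHom.inl _ _))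
  let t : GG A := SemidirectProduct.inl (FreeGroup.of 1)
  let t' : GG A := SemidirectProduct.inl (FreeGroup.of (1, ω))
  refine ⟨Γ, inferInstance, h1, ι, φ t, (p (true, 1))⁻¹, φ (t * t'⁻¹), H ⧸ (α true).range,
    H ⧸ (α false).range, inferInstance, inferInstance, fun k => (p (true, k.out))⁻¹,
    fun k => (p (false, k.out))⁻¹, fun k => -dir true k.out, fun k => -dir false k.out,
    ?_, ?_, ?_⟩
  · refine (injective_iff_map_eq_one _).2 fun u hu => ?_
    have h5 := h2 _ (by simp [DD_d]) hu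
    have h6 := (injective_iff_map_eq_one _).1 SemidirectProduct.inr_injective _ h5
    exact congrArg Prod.fst h6
  · intro h
    have h5 : (DD A).d 1 (t * t'⁻¹) ≤ 2 := by
      simp only [DD_d, t, t', ← map_inv, ← map_mul, SemidirectProduct.left_inl,
        SemidirectProduct.one_left, inv_one, one_mul]
      refine (FreeGroup.norm_mul_le _ _).trans ?_
      rw [FreeGroup.norm_inv_eq, FreeGroup.norm_of, FreeGroup.norm_of]
    have h6 := mul_inv_eq_one.1 (h2 _ h5 h)
    have h7 := FreeGroup.of_injective (SemidirectProduct.inl_injective h6)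
    have h8 : (1 : Multiplicative (ZMod 2)) = Multiplicative.ofAdd 1 := congrArg Prod.snd h7
    exact absurd h8 (by decide)
  · intro Φ
    have l1 : ∀ i h (a : F), ι (Multiplicative.ofAdd (a • -dir i h)) * (p (i, h))⁻¹ =
        (p (i, h * α i (Multiplicative.ofAdd a)))⁻¹ := by
      intro i h a
      have := h3 i h a
      change p (i, h * α i (Multiplicative.ofAdd a)) =
        p (i, h) * ι (Multiplicative.ofAdd (a • dir i h)) at this
      rw [this, mul_inv_rev, smul_neg, ofAdd_neg, map_inv]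
    simp only [l1]
    rw [← sum_coset (α true) (hinj true) fun h => Φ (p (true, h))⁻¹,
      ← sum_coset (α false) (hinj false) fun h => Φ (φ t * (p (false, h))⁻¹),
      ← Finset.add_sum_erase _ _ (Finset.mem_univ (1 : H)),
      ← Finset.add_sum_erase _ (fun h => Φ (φ t * (p (false, h))⁻¹)) (Finset.mem_univ (1 : H))]
    have l2 : ∑ h ∈ Finset.univ.erase (1 : H), Φ (φ t * (p (false, h))⁻¹) =
        ∑ h ∈ Finset.univ.erase (1 : H), Φ (p (true, h))⁻¹ := by
      refine Finset.sum_congr rfl fun h hh => ?_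
      have hne : h ≠ 1 := Finset.ne_of_mem_erase hh
      have e : P.τ h = 1 := by simp [P, hne, A]
      rw [h4 h, e, mul_inv_rev, mul_inv_cancel_left]
    have l3 : φ t * (p (false, 1))⁻¹ = φ (t * t'⁻¹) * (p (true, 1))⁻¹ := by
      have e : P.τ 1 = (1, ω) := by simp [P]
      rw [h4 1, e, mul_inv_rev, map_mul, map_inv, mul_assoc]
    rw [l2, l3]
    ring

theorem exists_nonsofic (hC : CodeStmt) (hG : GraphStmt) (hN : CountStmt) (hT : TreeStmt)
    (hW : WordStmt) : ∃ (Γ : Type) (_ : Group Γ), HypG Γ ∧ ¬ SofG Γ := by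
  obtain ⟨c, hc⟩ := hG (10 ^ 11)
  obtain ⟨F, _, _, hF⟩ := hC (c + 1)
  obtain ⟨H, _, _, α, h1, h2⟩ := hc F
  obtain ⟨Γ, _, h3, h4⟩ := exists_conf hT hW α c h1 h2
  exact ⟨Γ, inferInstance, h3, hN F (c + 1) Γ hF h4⟩

end Pool.Agent.NS
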