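import Pool.Agent.Lib.MP_b138e1_al.NS.Defs

/-! Convex subsets of a tree with small overlaps. -/

set_option autoImplicit false

namespace Pool.Agent.NS

open Pool.Agent.Bu

namespace Tree

variable {X : Type} {D : PM X} {Y Y' : Set X}

/-- Exactly intermediate points stay in the set. -/
def Cvx (D : PM X) (Y : Set X) : Prop :=
  ∀ a b z, a ∈ Y → b ∈ Y → D.d a z + D.d z b = D.d a b → z ∈ Y

theorem half (h : D.Hyp 0) {x p b z : X} (hp : D.Pr Y x p) (hz : z ∈ Y)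
    (e : D.d p z + D.d z b = D.d p b) (h1 : 1 ≤ D.d p z) : D.d x z + D.d z b ≤ D.d x b := by
  have a1 := h x z p b
  have a2 := hp.2 z hz
  have a3 := D.symm z p
  omega

theorem gated (h : D.Hyp 0) (hg : D.Geo 0) (hY : Cvx D Y) {x p b : X} (hp : D.Pr Y x p)
    (hb : b ∈ Y) : D.d x p + D.d p b ≤ D.d x b + 1 := by
  rcases Nat.eq_zero_or_pos (D.d p b) with h0 | h0
  · have := hp.2 b hb
    omega
  obtain ⟨z, e, h1, h2⟩ := hg p b 1 h0
  have hz := hY p b z hp.1 hb e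
  have a1 := half h hp hz e h1
  have a2 := hp.2 z hz
  omega

theorem gate (h : D.Hyp 0) (hg : D.Geo 0) (hY : Cvx D Y) {x p x' p' : X} (hp : D.Pr Y x p)
    (hp' : D.Pr Y x' p') : D.d p p' ≤ 1 ∨ D.d x p + D.d p p' + D.d p' x' ≤ D.d x x' + 2 := by
  have a1 := gated h hg hY hp hp'.1
  have a2 := gated h hg hY hp' hp.1
  have a3 := h x p' x' p
  have a4 := D.symm p p'
  have a5 := D.symm x' p'
  omega

theorem key (h : D.Hyp 0) (hY : Cvx D Y) {x p x' p' z : X} (hp : D.Pr Y x p)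
    (hp' : D.Pr Y x' p') (e : D.d p z + D.d z p' = D.d p p') (h1 : 1 ≤ D.d p z)
    (h2 : 1 ≤ D.d z p') : D.d x z + D.d z x' = D.d x x' := by
  have hz := hY p p' z hp.1 hp'.1 e
  have s1 := D.symm p p'
  have s2 := D.symm x' p'
  have s3 := D.symm z p
  have s4 := D.symm z p'
  have s5 := D.symm z x'
  have a1 := half h hp hz e h1
  have a2 := half (b := p) h hp' hz (by omega) (by omega)
  have a3 := h x p' x' p
  have a4 := hp.2 z hz
  have a5 := hp'.2 z hz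
  have a6 := D.tri x z x'
  omega

theorem ovl (h : D.Hyp 0) (hg : D.Geo 0) (hY : Cvx D Y) (hY' : Cvx D Y')
    (ho : ∀ a b, a ∈ Y → b ∈ Y → a ∈ Y' → b ∈ Y' → D.d a b ≤ 2) {x p x' p' : X} (hx : x ∈ Y')
    (hx' : x' ∈ Y') (hp : D.Pr Y x p) (hp' : D.Pr Y x' p') : D.d p p' ≤ 4 := by
  by_contra hn
  obtain ⟨z, e, h1, h2⟩ := hg p p' 1 (by omega)
  obtain ⟨w, e', h3, h4⟩ := hg p p' (D.d p p' - 1) (by omega)
  have a1 := ho z w (hY p p' z hp.1 hp'.1 e) (hY p p' w hp.1 hp'.1 e')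
    (hY' x x' z hx hx' (key h hY hp hp' e h1 (by omega)))
    (hY' x x' w hx hx' (key h hY hp hp' e' (by omega) (by omega)))
  have a2 := D.tri p z w
  omega

theorem behr (h : D.Hyp 0) (hg : D.Geo 0) (hY : Cvx D Y) (hY' : Cvx D Y')
    (ho : ∀ a b, a ∈ Y → b ∈ Y → a ∈ Y' → b ∈ Y' → D.d a b ≤ 2) {x p p' y q : X} (hp : p ∈ Y')
    (hy : y ∈ Y') (hp' : D.Pr Y x p') (hq : D.Pr Y y q) (hle : D.d x p ≤ D.d x p') :
    D.d p' q ≤ 6 := by
  obtain ⟨s, hs⟩ := D.pr_ex ⟨q, hq.1⟩ p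
  have a1 := ovl h hg hY hY' ho hp hy hs hq
  have a2 := gate h hg hY hp' hs
  have a3 := D.tri p' s q
  omega

end Tree

theorem treeStmt : TreeStmt := by
  intro X C D Y h hg hne hc ho
  refine ⟨fun c x p x' p' hp hp' => ?_, fun c c' x x' hcc hx hx' => ?_,
    fun c c' x y y' hcc hy hy' => ?_⟩
  · have := Tree.gate h hg (hc c) hp hp'
    omega
  · obtain ⟨p, p', hp, hp', e⟩ := D.ang_ex (hne c) x x'
    have := Tree.ovl h hg (hc c) (hc c') (fun a b => ho c c' a b hcc) hx hx' hp hp'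
    omega
  · obtain ⟨p, q, hp, hq, e⟩ := D.ang_ex (hne c) x y'
    obtain ⟨p', q', hp', hq', e'⟩ := D.ang_ex (hne c') x y
    rcases le_total (D.d x p) (D.d x p') with hle | hle
    · have := Tree.behr h hg (hc c') (hc c) (fun a b => ho c' c a b hcc.symm) hp.1 hy hp' hq' hle
      omega
    · have := Tree.behr h hg (hc c) (hc c') (fun a b => ho c c' a b hcc) hp'.1 hy' hp hq hle
      omega

end Pool.Agent.NS
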