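import Pool.Agent.Lib.MP_b138e1_al.NS.Defs
import Pool.Agent.Lib.MP_5bec91_al.Bu.Line

/-!
From a proper invariant hyperbolic pseudo-metric on a group to the word metric.
-/

set_option autoImplicit false

namespace Pool.Agent.NS

open Pool.Agent.Bu

namespace Word

section Metric

variable {X : Type} {D W : PM X} {δ : ℕ}

/-- A point three steps before the end of a `W`-geodesic is almost between its ends. -/
theorem three (hh : D.Hyp δ) (h1 : 1 ≤ δ) (hg : W.Geo 0) (ha : ∀ x y, D.d x y ≤ 11 * δ * W.d x y)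
    (hb : ∀ x y, 10 * δ * W.d x y ≤ D.d x y + 10 * δ) (x : X) (k : ℕ) :
    ∀ m y, W.d x m = k → W.d m y = 3 → W.d x y = k + 3 → D.Btw (17 * δ) x m y := by
  induction k using Nat.strong_induction_on with
  | _ k ih =>
    intro m y e1 e2 e3
    have a2 := ha m y
    rw [e2] at a2
    by_cases hk : k ≤ 3
    · have a1 := ha x m
      have a3 := hb x y
      rw [e1] at a1
      rw [e3] at a3
      simp only [PM.Btw]
      interval_cases k <;> omega
    · obtain ⟨u, u1, u2, u3⟩ := hg x m (k - 3) (by omega)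
      have u4 : W.d u m = 3 := by omega
      have u5 : W.d u y = 6 := by
        have := W.tri x u y
        have := W.tri u m y
        omega
      have b1 := ih (k - 3) (by omega) u m (by omega) u4 (by omega)
      have b2 := ha u m
      have b3 := hb u m
      have b4 := hb u y
      rw [u4] at b2 b3
      rw [u5] at b4
      have b5 := hh u y x m
      have s1 := D.symm u x
      have s2 := D.symm y m
      have s3 := D.symm y x
      simp only [PM.Btw] at *
      omega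

/-- Stability of `W`-geodesics. -/
theorem morse (hh : D.Hyp δ) (h1 : 1 ≤ δ) (hg : W.Geo 0) (ha : ∀ x y, D.d x y ≤ 11 * δ * W.d x y)
    (hb : ∀ x y, 10 * δ * W.d x y ≤ D.d x y + 10 * δ) {x m y : X}
    (h : W.d x m + W.d m y = W.d x y) : D.Btw (66 * δ) x m y := by
  by_cases hk : W.d m y ≤ 3
  · have a1 := (ha m y).trans (Nat.mul_le_mul_left _ hk)
    have a2 := D.tri x y m
    have s1 := D.symm y m
    simp only [PM.Btw]
    omega
  · obtain ⟨n, n1, n2, n3⟩ := hg m y 3 (by omega)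
    have n4 : W.d m n = 3 := by omega
    have t1 := W.tri x m n
    have t2 := W.tri x n y
    have w1 := W.symm y n
    have w2 := W.symm n m
    have w3 := W.symm y m
    have b1 := three hh h1 hg ha hb x _ m n rfl n4 (by omega)
    have b2 := three hh h1 hg ha hb y _ n m rfl (by omega) (by omega)
    have b3 := hb m n
    rw [n4] at b3
    have b4 := hh x n y m
    have s1 := D.symm y m
    have s2 := D.symm n m
    have s3 := D.symm y n
    simp only [PM.Btw] at *
    omega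

/-- A point almost between two points is close to a `W`-geodesic. -/
theorem close (hh : D.Hyp δ) (h1 : 1 ≤ δ) (hg : W.Geo 0) (ha : ∀ x y, D.d x y ≤ 11 * δ * W.d x y)
    (hb : ∀ x y, 10 * δ * W.d x y ≤ D.d x y + 10 * δ) {x m z : X} (hm : D.Btw (67 * δ) x m z)
    (k : ℕ) : ∀ u, W.d u z = k → W.d x u + W.d u z = W.d x z →
      D.d x u + D.d m z ≤ D.d x m + D.d u z →
      ∃ w, W.d x w + W.d w z = W.d x z ∧ D.d w m ≤ 80 * δ := by
  have fin : ∀ u, W.d x u + W.d u z = W.d x z → D.d x u + D.d m z ≤ D.d x m + D.d u z →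
      D.d x m + D.d u z ≤ D.d x u + D.d m z + 22 * δ → D.d u m ≤ 80 * δ := fun u e p q => by
    have := Hyp.dist2 D δ _ _ x z u m hh (morse hh h1 hg ha hb e) hm p
    omega
  induction k with
  | zero =>
    intro u e1 e2 p
    refine ⟨u, e2, fin u e2 p ?_⟩
    have a1 := ha u z
    rw [e1] at a1
    have t1 := D.tri x u m
    have t2 := D.tri u z m
    have s1 := D.symm z m
    omega
  | succ k ih =>
    intro u e1 e2 p
    by_cases q : D.d x m + D.d u z ≤ D.d x u + D.d m z + 22 * δ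
    · exact ⟨u, e2, fin u e2 p q⟩
    · obtain ⟨v, v1, v2, v3⟩ := hg u z 1 (by omega)
      have v4 : W.d u v = 1 := by omega
      have a1 := ha u v
      rw [v4] at a1
      have t1 := W.tri x u v
      have t2 := W.tri x v z
      have t3 := D.tri x u v
      have t4 := D.tri u v z
      exact ih v (by omega) (by omega) (by omega)

theorem wbtw (hh : D.Hyp δ) (h1 : 1 ≤ δ) (hg : W.Geo 0) (ha : ∀ x y, D.d x y ≤ 11 * δ * W.d x y)
    (hb : ∀ x y, 10 * δ * W.d x y ≤ D.d x y + 10 * δ) {x m z : X} (hm : D.Btw (67 * δ) x m z) :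
    W.Btw 18 x m z := by
  obtain ⟨w, w1, w2⟩ := close hh h1 hg ha hb hm _ x rfl (by rw [W.refl, zero_add]) (by
    have := D.tri m x z
    have := D.symm m x
    have := D.refl x
    omega)
  have b1 := hb w m
  have b2 : W.d w m ≤ 9 :=
    Nat.le_of_mul_le_mul_left (show 10 * δ * W.d w m ≤ 10 * δ * 9 by omega) (by omega)
  have t1 := W.tri x w m
  have t2 := W.tri m w z
  have s1 := W.symm m w
  simp only [PM.Btw]
  omega

theorem whyp (hh : D.Hyp δ) (h1 : 1 ≤ δ) (hg : W.Geo 0) (ha : ∀ x y, D.d x y ≤ 11 * δ * W.d x y)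
    (hb : ∀ x y, 10 * δ * W.d x y ≤ D.d x y + 10 * δ) : W.Hyp (3 * 18 + 2 * 0 + 1) := by
  refine Hyp.thin W 18 0 (fun x y z m e => ?_) hg
  have b1 := morse hh h1 hg ha hb e
  have b2 := hh x y z m
  have s1 := D.symm z m
  have s2 := D.symm y m
  have s3 := D.symm y z
  refine Or.imp (wbtw hh h1 hg ha hb) (wbtw hh h1 hg ha hb) ?_
  simp only [PM.Btw] at *
  omega

end Metric

section Group

variable {Γ : Type} [Group Γ]

/-- Word length. -/
noncomputable def len (S : Finset Γ) (g : Γ) : ℕ :=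
  sInf {n : ℕ | ∃ l : List Γ, l.length = n ∧ (∀ x ∈ l, x ∈ S ∨ x⁻¹ ∈ S) ∧ l.prod = g}

variable {S : Finset Γ}

theorem len_le {l : List Γ} (h : ∀ x ∈ l, x ∈ S ∨ x⁻¹ ∈ S) : len S l.prod ≤ l.length :=
  Nat.sInf_le ⟨l, rfl, h, rfl⟩

theorem len_spec (hS : ∀ g : Γ, ∃ l : List Γ, (∀ x ∈ l, x ∈ S ∨ x⁻¹ ∈ S) ∧ l.prod = g) (g : Γ) :
    ∃ l : List Γ, l.length = len S g ∧ (∀ x ∈ l, x ∈ S ∨ x⁻¹ ∈ S) ∧ l.prod = g := by
  obtain ⟨l, h⟩ := hS g
  exact Nat.sInf_mem (s := {n : ℕ | ∃ l : List Γ, l.length = n ∧ (∀ x ∈ l, x ∈ S ∨ x⁻¹ ∈ S) ∧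
    l.prod = g}) ⟨_, l, rfl, h⟩

theorem len_inv (hS : ∀ g : Γ, ∃ l : List Γ, (∀ x ∈ l, x ∈ S ∨ x⁻¹ ∈ S) ∧ l.prod = g) (g : Γ) :
    len S g⁻¹ ≤ len S g := by
  obtain ⟨l, h1, h2, rfl⟩ := len_spec hS g
  rw [← h1, List.prod_inv_reverse]
  refine (len_le fun x hx => ?_).trans (by simp)
  obtain ⟨y, hy, rfl⟩ := List.mem_map.1 (List.mem_reverse.1 hx)
  rw [inv_inv]
  exact (h2 y hy).symm

/-- The word metric. -/
noncomputable def wm (hS : ∀ g : Γ, ∃ l : List Γ, (∀ x ∈ l, x ∈ S ∨ x⁻¹ ∈ S) ∧ l.prod = g) :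
    PM Γ where
  d x y := len S (x⁻¹ * y)
  refl x := by
    rw [inv_mul_cancel]
    exact Nat.le_zero.1 (len_le (l := []) (by simp))
  symm x y := le_antisymm (by simpa using len_inv hS (y⁻¹ * x)) (by simpa using len_inv hS (x⁻¹ * y))
  tri x y z := by
    obtain ⟨l, h1, h2, h3⟩ := len_spec hS (x⁻¹ * y)
    obtain ⟨l', h1', h2', h3'⟩ := len_spec hS (y⁻¹ * z)
    have := len_le (S := S) (l := l ++ l') fun a ha => (List.mem_append.1 ha).elim (h2 a) (h2' a)
    rwa [List.prod_append, List.length_append, h1, h1', h3, h3', mul_assoc,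
      mul_inv_cancel_left] at this

theorem wm_geo (hS : ∀ g : Γ, ∃ l : List Γ, (∀ x ∈ l, x ∈ S ∨ x⁻¹ ∈ S) ∧ l.prod = g) :
    (wm hS).Geo 0 := by
  intro x y t ht
  obtain ⟨l, h1, h2, h3⟩ := len_spec hS (x⁻¹ * y)
  have k0 : (wm hS).d x y = l.length := h1.symm
  have k1 : (wm hS).d x (x * (l.take t).prod) ≤ (l.take t).length := by
    have := len_le (S := S) (l := l.take t) fun a ha => h2 a (List.mem_of_mem_take ha)
    rwa [← inv_mul_cancel_left x (l.take t).prod] at this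
  have k2 : (wm hS).d (x * (l.take t).prod) y ≤ (l.drop t).length := by
    have := len_le (S := S) (l := l.drop t) fun a ha => h2 a (List.mem_of_mem_drop ha)
    rwa [← inv_mul_cancel_left (l.take t).prod (l.drop t).prod, List.prod_take_mul_prod_drop, h3,
      ← mul_assoc, ← mul_inv_rev] at this
  have k3 := (wm hS).tri x (x * (l.take t).prod) y
  rw [List.length_take] at k1
  rw [List.length_drop] at k2
  exact ⟨x * (l.take t).prod, by omega, by omega, by omega⟩

variable {D : PM Γ} {δ : ℕ}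

theorem d_mul (hi : D.Iso Γ) (x y : Γ) : D.d 1 (x⁻¹ * y) = D.d x y := by
  rw [← hi x, smul_eq_mul, smul_eq_mul, mul_one, mul_inv_cancel_left]

theorem short (hG : Geom Γ D δ) (hS : ∀ g, g ∈ S ↔ D.d 1 g ≤ 11 * δ) (n : ℕ) :
    ∀ g, D.d 1 g = n → ∃ l : List Γ, (∀ x ∈ l, x ∈ S ∨ x⁻¹ ∈ S) ∧ l.prod = g ∧
      10 * δ * l.length ≤ n + 10 * δ := by
  induction n using Nat.strong_induction_on with
  | _ n ih =>
    intro g e
    by_cases h : n ≤ 11 * δ
    · exact ⟨[g], by simp [hS, e, h], by simp, by simp⟩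
    · obtain ⟨z, z1, z2, z3⟩ := hG.geo 1 g (10 * δ) (by omega)
      have := hG.pos
      obtain ⟨l, l1, l2, l3⟩ := ih (D.d z g) (by omega) _ (d_mul hG.iso z g)
      refine ⟨z :: l, fun x hx => ?_, by simp [l2], ?_⟩
      · rcases List.mem_cons.1 hx with rfl | hx
        · exact .inl ((hS _).2 (by omega))
        · exact l1 x hx
      · rw [List.length_cons, Nat.mul_succ]
        omega

theorem d_le (hi : D.Iso Γ) (hS : ∀ g, g ∈ S ↔ D.d 1 g ≤ 11 * δ) (l : List Γ)
    (h : ∀ x ∈ l, x ∈ S ∨ x⁻¹ ∈ S) : D.d 1 l.prod ≤ 11 * δ * l.length := by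
  induction l with
  | nil => simp [D.refl]
  | cons a l ih =>
    have k1 := ih fun x hx => h x (List.mem_cons_of_mem _ hx)
    have k2 : D.d 1 a ≤ 11 * δ := by
      rcases h a List.mem_cons_self with k | k
      · exact (hS _).1 k
      · rw [D.symm, ← d_mul hi, mul_one]
        exact (hS _).1 k
    have k3 := D.tri 1 a (a * l.prod)
    rw [← d_mul hi a, inv_mul_cancel_left] at k3
    rw [List.prod_cons, List.length_cons, Nat.mul_succ]
    omega

end Group

end Word

theorem wordStmt : WordStmt := by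
  intro Γ _ D δ hG hf
  have hS : ∀ g, g ∈ (hf (11 * δ)).toFinset ↔ D.d 1 g ≤ 11 * δ := fun g => by simp
  generalize (hf (11 * δ)).toFinset = S at hS
  have hS' : ∀ g : Γ, ∃ l : List Γ, (∀ x ∈ l, x ∈ S ∨ x⁻¹ ∈ S) ∧ l.prod = g := fun g =>
    (Word.short hG hS _ g rfl).imp fun _ k => ⟨k.1, k.2.1⟩
  have hw := Word.whyp (W := Word.wm hS') hG.hyp hG.pos (Word.wm_geo hS') (fun x y => by
    obtain ⟨l, h1, h2, h3⟩ := Word.len_spec hS' (x⁻¹ * y)
    have := Word.d_le hG.iso hS l h2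
    rwa [h3, Word.d_mul hG.iso, h1] at this) fun x y => by
    obtain ⟨l, h1, h2, h3⟩ := Word.short hG hS _ _ (Word.d_mul hG.iso x y)
    have := Word.len_le h1
    rw [h2] at this
    exact (Nat.mul_le_mul_left _ this).trans h3
  refine ⟨S, eq_top_iff.2 fun g _ => ?_, Word.len S, fun _ => rfl, 28, fun x y z w =>
    (hw x y z w).trans (Nat.add_le_add_left (by norm_num) _)⟩
  obtain ⟨l, h1, rfl⟩ := hS' g
  refine Subgroup.list_prod_mem _ fun x hx => (h1 x hx).elim (fun k => Subgroup.subset_closure k)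
    fun k => ?_
  exact (Subgroup.inv_mem_iff _).1 (Subgroup.subset_closure k)

end Pool.Agent.NS
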