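import Pool.Agent.Lib.MP_b138e1_al.Sof
import Pool.Agent.Lib.MP_b138e1_al.HypDef
import Pool.Agent.Lib.MP_b138e1_al.NS.Quot
import Pool.Agent.Lib.MP_b138e1_al.NS.Code
import Pool.Agent.Lib.MP_b138e1_al.NS.Graph
import Pool.Agent.Lib.MP_b138e1_al.NS.Count
import Pool.Agent.Lib.MP_b138e1_al.NS.Word
import Pool.Agent.Lib.MP_b138e1_al.NS.Tree

/-! Translation to the Cayley graph metric and to the Hamming form of soficity. -/

set_option autoImplicit false

namespace Pool.Agent.NS

open Pool.Agent.Lib.MP_b138e1_al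

theorem walk_of_list {G : Type} [Group G] (S : Finset G) : ∀ (l : List G) (x : G),
    (∀ a ∈ l, a ∈ S ∨ a⁻¹ ∈ S) →
    ∃ p : (SimpleGraph.mulCayley (S : Set G)).Walk x (x * l.prod), p.length ≤ l.length
  | [], x, _ => ⟨SimpleGraph.Walk.nil.copy rfl (by simp), by
      rw [SimpleGraph.Walk.length_copy]; exact le_rfl⟩
  | a :: l, x, h => by
    obtain ⟨p, hp⟩ := walk_of_list S l (x * a) fun b hb => h b (List.mem_cons_of_mem _ hb)
    by_cases ha : a = 1
    · subst ha
      exact ⟨p.copy (by simp) (by simp), by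
        rw [SimpleGraph.Walk.length_copy, List.length_cons]; omega⟩
    · have adj : (SimpleGraph.mulCayley (S : Set G)).Adj x (x * a) := by
        rw [SimpleGraph.mulCayley_adj']
        refine ⟨by simpa using ha, ?_⟩
        rcases h a (by simp) with h1 | h1
        · exact ⟨a, h1, Or.inl rfl⟩
        · exact ⟨a⁻¹, h1, Or.inr (by simp)⟩
      exact ⟨(SimpleGraph.Walk.cons adj p).copy rfl (by simp [mul_assoc]), by simpa using hp⟩

theorem list_of_walk {G : Type} [Group G] (S : Finset G) {x y : G}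
    (p : (SimpleGraph.mulCayley (S : Set G)).Walk x y) :
    ∃ l : List G, l.length = p.length ∧ (∀ a ∈ l, a ∈ S ∨ a⁻¹ ∈ S) ∧ l.prod = x⁻¹ * y := by
  induction p with
  | nil => exact ⟨[], rfl, by simp, by simp⟩
  | @cons u v w adj p ih =>
    obtain ⟨l, h1, h2, h3⟩ := ih
    refine ⟨(u⁻¹ * v) :: l, by simp [h1], ?_, by simp [h3, mul_assoc]⟩
    intro a ha
    rcases List.mem_cons.1 ha with rfl | ha
    · obtain ⟨-, g, hg, e | e⟩ := (SimpleGraph.mulCayley_adj' _ _ _).1 adj
      · left; rw [← e]; simpa using hg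
      · right; rw [e]; simpa using hg
    · exact h2 a ha

theorem gromov_of_hypG {G : Type} [Group G] (h : HypG G) : GromovHyperbolic G := by
  obtain ⟨S, hS, ℓ, hℓ, δ, hδ⟩ := h
  have key : ∀ x y : G, (SimpleGraph.mulCayley (S : Set G)).dist x y = ℓ (x⁻¹ * y) := by
    intro x y
    have h1 : x⁻¹ * y ∈ Subgroup.closure (S : Set G) := by rw [hS]; trivial
    obtain ⟨l0, h2, h3⟩ : ∃ l : List G, (∀ a ∈ l, a ∈ S ∨ a⁻¹ ∈ S) ∧ l.prod = x⁻¹ * y := by
      have h0 : x⁻¹ * y ∈ Submonoid.closure ((S : Set G) ∪ (S : Set G)⁻¹) := by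
        rw [← Subgroup.closure_toSubmonoid]; exact h1
      obtain ⟨l, k1, k2⟩ := Submonoid.exists_list_of_mem_closure h0
      exact ⟨l, fun a ha => k1 a ha, k2⟩
    obtain ⟨l, h4, h5, h6⟩ := Nat.sInf_mem (s := {n : ℕ | ∃ l : List G, l.length = n ∧
      (∀ x ∈ l, x ∈ S ∨ x⁻¹ ∈ S) ∧ l.prod = x⁻¹ * y}) ⟨_, l0, rfl, h2, h3⟩
    obtain ⟨p, hp⟩ := walk_of_list S l x h5
    have e : x * l.prod = y := by rw [h6, mul_inv_cancel_left]
    have h7 := SimpleGraph.dist_le (p.copy rfl e)
    obtain ⟨q, hq⟩ := (p.copy rfl e).reachable.exists_walk_length_eq_dist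
    obtain ⟨m, h8, h9, h10⟩ := list_of_walk S q
    have h11 : ℓ (x⁻¹ * y) ≤ m.length := by rw [hℓ]; exact Nat.sInf_le ⟨m, rfl, h9, h10⟩
    rw [SimpleGraph.Walk.length_copy] at h7
    rw [← hℓ] at h4
    omega
  refine ⟨S, hS, δ, Nat.cast_nonneg δ, fun x y z w => ?_⟩
  simp only [wordDist, key]
  exact_mod_cast hδ x y z w

theorem sofG_of_sofic {G : Type} [Group G] (h : Sofic G) : SofG G := by
  classical
  intro F ε hε
  obtain ⟨n, hn, φ, h1, h2⟩ := h (insert 1 F) (ε / 2) (by positivity)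
  have hn' : (0 : ℝ) < n := by exact_mod_cast hn
  have h3 : ∀ g ∈ insert 1 F, ∀ k ∈ insert 1 F,
      (((Finset.univ.filter fun i : Fin n => φ (g * k) i ≠ φ g (φ k i)).card : ℕ) : ℝ)
        < ε / 2 * n := fun g hg k hk => (div_lt_iff₀ hn').1 (h1 g hg k hk)
  have h4 : (((Finset.univ.filter fun i : Fin n => i ≠ φ 1 i).card : ℕ) : ℝ) < ε / 2 * n := by
    have := h3 1 (by simp) 1 (by simp)
    simpa using this
  have h5 : 0 < ε * n := by positivity
  refine ⟨n, hn, Function.update φ 1 1, by simp, ?_, ?_⟩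
  · intro g hg k hk
    by_cases g1 : g = 1
    · subst g1; simpa using h5
    by_cases k1 : k = 1
    · subst k1; simpa using h5
    have h6 := h3 g (Finset.mem_insert_of_mem hg) k (Finset.mem_insert_of_mem hk)
    rw [Function.update_of_ne g1, Function.update_of_ne k1]
    by_cases gk : g * k = 1
    · rw [gk] at h6 ⊢
      rw [Function.update_self]
      have h7 : (Finset.univ.filter fun i : Fin n => (1 : Equiv.Perm (Fin n)) i ≠ φ g (φ k i)) ⊆
          (Finset.univ.filter fun i : Fin n => i ≠ φ 1 i) ∪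
            (Finset.univ.filter fun i : Fin n => φ 1 i ≠ φ g (φ k i)) := by
        intro i hi
        have hi : i ≠ φ g (φ k i) := (Finset.mem_filter.1 hi).2
        simp only [Finset.mem_union, Finset.mem_filter, Finset.mem_univ, true_and]
        by_cases e : i = φ 1 i
        · right; rw [← e]; exact hi
        · exact Or.inl e
      have h8 := (Finset.card_le_card h7).trans (Finset.card_union_le _ _)
      have h9 := (Nat.cast_le (α := ℝ)).2 h8
      rw [Nat.cast_add] at h9
      exact h9.trans_lt ((add_lt_add h4 h6).trans_le (le_of_eq (by ring)))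
    · rw [Function.update_of_ne gk]
      linarith
  · intro g hg g1
    rw [Function.update_of_ne g1]
    have h6 := (lt_div_iff₀ hn').1 (h2 g (Finset.mem_insert_of_mem hg) g1)
    have h7 := Finset.card_filter_add_card_filter_not (s := (Finset.univ : Finset (Fin n)))
      (fun i => φ g i = i)
    rw [Finset.card_univ, Fintype.card_fin] at h7
    have h8 : (((Finset.univ.filter fun i : Fin n => φ g i = i).card : ℕ) : ℝ) +
        ((Finset.univ.filter fun i : Fin n => ¬ φ g i = i).card : ℕ) = n := by exact_mod_cast h7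
    simp only [Equiv.Perm.coe_one, id, ne_eq] at h6
    have h9 : (((Finset.univ.filter fun i : Fin n => φ g i = i).card : ℕ) : ℝ) < ε / 2 * n := by
      have e : (1 - ε / 2) * (n : ℝ) = n - ε / 2 * n := by ring
      rw [e] at h6
      exact lt_of_add_lt_add_right (h8.trans_lt (by rw [add_comm]; exact sub_lt_iff_lt_add.1 h6))
    linarith

theorem rfG_of_rf {G : Type} [Group G] (h : Group.ResiduallyFinite G) : RFG G := by
  intro g hg
  obtain ⟨H, hH⟩ := Group.exists_finiteIndexNormalSubgroup_notMem g hg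
  exact ⟨H.toSubgroup, inferInstance, inferInstance, hH⟩

theorem nonsofic_hyperbolic : ∃ (G : Type) (_ : Group G),
    GromovHyperbolic G ∧ ¬ Sofic G ∧ ¬ Group.ResiduallyFinite G := by
  obtain ⟨Γ, _, h1, h2⟩ := exists_nonsofic codeStmt graphStmt countStmt treeStmt wordStmt
  exact ⟨Γ, inferInstance, gromov_of_hypG h1, fun h => h2 (sofG_of_sofic h),
    fun h => h2 (rfStmt Γ (rfG_of_rf h))⟩

end Pool.Agent.NS
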