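import Pool.Agent.Lib.MP_5bec91_al.Bu.Defs

/-!
A hyperbolic group that is not sofic: definitions and statements of the steps
(plan: team-store ns_PLAN.md).
-/

set_option autoImplicit false

namespace Pool.Agent.NS

open Pool.Agent.Bu

/-- Hyperbolicity, in the form of the frozen statement. -/
def HypG (G : Type) [Group G] : Prop :=
  ∃ S : Finset G, Subgroup.closure (S : Set G) = ⊤ ∧
    ∃ ℓ : G → ℕ,
      (∀ g : G, ℓ g = sInf {n : ℕ | ∃ l : List G, l.length = n ∧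
        (∀ x ∈ l, x ∈ S ∨ x⁻¹ ∈ S) ∧ l.prod = g}) ∧
      ∃ δ : ℕ, ∀ x y z w : G,
        ℓ (x⁻¹ * y) + ℓ (z⁻¹ * w) ≤
          max (ℓ (x⁻¹ * z) + ℓ (y⁻¹ * w)) (ℓ (x⁻¹ * w) + ℓ (y⁻¹ * z)) + 2 * δ

/-- Residual finiteness, in the form of the frozen statement. -/
def RFG (G : Type) [Group G] : Prop :=
  ∀ g : G, g ≠ 1 → ∃ H : Subgroup G, H.Normal ∧ H.FiniteIndex ∧ g ∉ H

/-- Soficity, in the form of the frozen statement. -/
def SofG (G : Type) [Group G] : Prop :=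
  ∀ F : Finset G, ∀ ε : ℝ, 0 < ε →
    ∃ n : ℕ, 0 < n ∧ ∃ φ : G → Equiv.Perm (Fin n),
      φ 1 = 1 ∧
      (∀ g ∈ F, ∀ h ∈ F,
        (((Finset.univ.filter fun i : Fin n => φ (g * h) i ≠ φ g (φ h i)).card : ℕ) : ℝ)
          < ε * (n : ℝ)) ∧
      (∀ g ∈ F, g ≠ 1 →
        (((Finset.univ.filter fun i : Fin n => φ g i = i).card : ℕ) : ℝ) < ε * (n : ℝ))

/-- Functions on `F ^ n` whose sum over every affine line vanishes. -/
def LineCode (F : Type) [Field F] [Fintype F] (n : ℕ) : Submodule F ((Fin n → F) → F) where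
  carrier := {f | ∀ x d : Fin n → F, ∑ a : F, f (x + a • d) = 0}
  zero_mem' := by intro x d; simp
  add_mem' := by
    intro f g hf hg x d
    simp only [Pi.add_apply, Finset.sum_add_distrib, hf x d, hg x d, add_zero]
  smul_mem' := by
    intro c f hf x d
    simp only [Pi.smul_apply, smul_eq_mul, ← Finset.mul_sum, hf x d, mul_zero]

theorem mem_LineCode {F : Type} [Field F] [Fintype F] {n : ℕ} {f : (Fin n → F) → F} :
    f ∈ LineCode F n ↔ ∀ x d : Fin n → F, ∑ a : F, f (x + a • d) = 0 := Iff.rfl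

/-- No alternating product of length between `1` and `g` is trivial. -/
def Girth {F H : Type} [Field F] [Group H] (α : Bool → (Multiplicative F →* H)) (g : ℕ) : Prop :=
  ∀ l : List (Bool × F), l ≠ [] → l.length ≤ g → (∀ x ∈ l, x.2 ≠ 0) →
    l.IsChain (fun x y => x.1 ≠ y.1) →
    (l.map fun x => α x.1 (Multiplicative.ofAdd x.2)).prod ≠ 1

/-- The configuration that obstructs finite approximations: a difference of two points is a
signed sum of lines. -/
def Conf (F : Type) [Field F] [Fintype F] (n : ℕ) (Γ : Type) [Group Γ] : Prop :=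
  ∃ (ι : Multiplicative (Fin n → F) →* Γ) (t z X : Γ) (J J' : Type) (_ : Fintype J)
    (_ : Fintype J') (y : J → Γ) (y' : J' → Γ) (d : J → Fin n → F) (d' : J' → Fin n → F),
    Function.Injective ι ∧ X ≠ 1 ∧ ∀ Φ : Γ → F,
      ∑ j, ∑ a : F, Φ (ι (Multiplicative.ofAdd (a • d j)) * y j) + Φ (X * z) =
        ∑ j, ∑ a : F, Φ (t * (ι (Multiplicative.ofAdd (a • d' j)) * y' j)) + Φ z

/-- The local code has rate above three quarters. -/
def CodeStmt : Prop :=
  ∀ n : ℕ, ∃ (F : Type) (_ : Field F) (_ : Fintype F),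
    3 * Fintype.card F ^ n < 4 * Module.finrank F (LineCode F n)

/-- Small finite groups with large girth. -/
def GraphStmt : Prop :=
  ∀ g : ℕ, ∃ c : ℕ, ∀ (F : Type) [Field F] [Fintype F],
    ∃ (H : Type) (_ : Group H) (_ : Fintype H) (α : Bool → (Multiplicative F →* H)),
      Fintype.card H ≤ Fintype.card F ^ c ∧ Girth α g

def CountStmt : Prop :=
  ∀ (F : Type) [Field F] [Fintype F] (n : ℕ) (Γ : Type) [Group Γ],
    3 * Fintype.card F ^ n < 4 * Module.finrank F (LineCode F n) → Conf F n Γ → ¬ SofG Γ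

def RFStmt : Prop := ∀ (Γ : Type) [Group Γ], RFG Γ → SofG Γ

/-- From a proper invariant hyperbolic pseudo-metric to the word metric. -/
def WordStmt : Prop :=
  ∀ (Γ : Type) [Group Γ] (D : PM Γ) (δ : ℕ), Geom Γ D δ →
    (∀ R : ℕ, {g : Γ | D.d 1 g ≤ R}.Finite) → HypG Γ

/-- Convex subsets of a tree with small overlaps. -/
def TreeStmt : Prop :=
  ∀ {X C : Type} (D : PM X) (Y : C → Set X), D.Hyp 0 → D.Geo 0 → (∀ c, (Y c).Nonempty) →
    (∀ c a b z, a ∈ Y c → b ∈ Y c → D.d a z + D.d z b = D.d a b → z ∈ Y c) →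
    (∀ c c' a b, c ≠ c' → a ∈ Y c → b ∈ Y c → a ∈ Y c' → b ∈ Y c' → D.d a b ≤ 2) →
    (∀ c x p x' p', D.Pr (Y c) x p → D.Pr (Y c) x' p' →
      D.d p p' ≤ 10 ∨ D.d x p + D.d p p' + D.d p' x' ≤ D.d x x' + 10) ∧
    (∀ c c' x x', c ≠ c' → x ∈ Y c' → x' ∈ Y c' → D.ang (Y c) x x' ≤ 10) ∧
    (∀ c c' x y y', c ≠ c' → y ∈ Y c → y' ∈ Y c' →
      D.ang (Y c) x y' ≤ 10 ∨ D.ang (Y c') x y ≤ 10)

end Pool.Agent.NS
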