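import Pool.Agent.Lib.MP_b138e1_al.NS.Defs
import Pool.Agent.Lib.MP_5bec91_al.Bu.Base

/-! The cone system of a labelled graph in the tree of `A * Z`. -/

set_option autoImplicit false

namespace Pool.Agent.NS

open Pool.Agent.Bu Pool.Agent.Bu.Base FreeGroup MulAction

/-- Labelling data of a coset graph. -/
structure Dat (F H A : Type) [Field F] [Group H] [CommGroup A] (g : ℕ) where
  α : Bool → (Multiplicative F →* H)
  mv : Bool → H → F → A
  τ : H → A
  ρ : A →* A
  mv_add : ∀ i h a b, mv i h (a + b) = mv i h a * mv i h b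
  mv_inv : ∀ i h a, mv i (h * α i (Multiplicative.ofAdd a)) = mv i h
  ρτ : ∀ h, ρ (τ h) = 1
  ρmv : ∀ i h a, ρ (mv i h a) = mv i h a
  rig : ∀ i h h' a a', mv i h a = mv i h' a' → a ≠ 0 →
    a = a' ∧ ∃ b, h' = h * α i (Multiplicative.ofAdd b)
  girth : Girth α g
  big : 2 ≤ g

abbrev Om (H A : Type) [CommGroup A] : Type := GG A × (Bool × H)

namespace Dat
variable {F H A : Type} [Field F] [Group H] [CommGroup A] {g : ℕ} (P : Dat F H A g)

def al (i : Bool) (a : F) : H := P.α i (Multiplicative.ofAdd a)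

theorem al_zero (i : Bool) : P.al i 0 = 1 := by simp [al]

theorem al_add (i : Bool) (a b : F) : P.al i (a + b) = P.al i a * P.al i b := by
  simp [al, ofAdd_add]

theorem mv_zero (i : Bool) (h : H) : P.mv i h 0 = 1 := by
  have := P.mv_add i h 0 0
  rw [add_zero] at this
  exact left_eq_mul.1 this

def sl (a : F) (z : Om H A) : Om H A :=
  (z.1 * SemidirectProduct.inr (P.mv z.2.1 z.2.2 a), (z.2.1, z.2.2 * P.al z.2.1 a))

def fl (z : Om H A) : Om H A :=
  (z.1 * SemidirectProduct.inl (FreeGroup.mk [(P.τ z.2.2, z.2.1)]), (!z.2.1, z.2.2))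

def tr (x : GG A) (z : Om H A) : Om H A := (x * z.1, z.2)

theorem sl_zero (z : Om H A) : P.sl 0 z = z := by
  simp [sl, mv_zero, al_zero]

theorem sl_sl (a b : F) (z : Om H A) : P.sl b (P.sl a z) = P.sl (a + b) z := by
  have := P.mv_inv z.2.1 z.2.2 a
  simp only [sl, al_add, P.mv_add, _root_.map_mul, mul_assoc]
  unfold al at *
  rw [this]

theorem fl_fl (z : Om H A) : P.fl (P.fl z) = z := by
  have e : (FreeGroup.mk [(P.τ z.2.2, z.2.1)] : FreeGroup A) * FreeGroup.mk [(P.τ z.2.2, !z.2.1)] = 1 := by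
    rw [mul_eq_one_iff_eq_inv, inv_mk]
    simp [invRev]
  simp only [fl, mul_assoc, ← _root_.map_mul, e]
  simp

def run : Om H A → List F → Om H A
  | z, [] => z
  | z, a :: l => run (P.fl (P.sl a z)) l

def lt (z : Om H A) : A × Bool := (z.1.right * P.τ z.2.2, z.2.1)

def wd : Om H A → List F → List (A × Bool)
  | _, [] => []
  | z, a :: l => P.lt (P.sl a z) :: wd (P.fl (P.sl a z)) l

theorem sl_left (a : F) (z : Om H A) : (P.sl a z).1.left = z.1.left := by simp [sl]

theorem sl_right (a : F) (z : Om H A) :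
    (P.sl a z).1.right = z.1.right * P.mv z.2.1 z.2.2 a := by simp [sl]

theorem fl_left (z : Om H A) : (P.fl z).1.left = z.1.left * FreeGroup.mk [P.lt z] := by
  simp [fl, lt, act_apply, map.mk]

theorem fl_right (z : Om H A) : (P.fl z).1.right = z.1.right := by simp [fl]

theorem run_left : ∀ (l : List F) (z : Om H A),
    (P.run z l).1.left = z.1.left * FreeGroup.mk (P.wd z l)
  | [], z => by simp [run, wd, ← one_eq_mk]
  | a :: l, z => by
    rw [run, run_left l, fl_left, sl_left, wd, mk_cons _ (P.wd _ l), mul_assoc]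

theorem wd_length : ∀ (l : List F) (z : Om H A), (P.wd z l).length = l.length
  | [], _ => rfl
  | a :: l, z => by simp [wd, wd_length l]

theorem run_append : ∀ (l m : List F) (z : Om H A), P.run z (l ++ m) = P.run (P.run z l) m
  | [], _, _ => rfl
  | _ :: l, m, _ => run_append l m _

def Red (l : List F) : Prop := ∀ a ∈ l.tail, a ≠ 0

theorem Red.tail {a : F} {l : List F} (h : Red (a :: l)) : Red l :=
  fun b hb => h b (List.mem_of_mem_tail hb)

theorem Red.take {l : List F} (h : Red l) (t : ℕ) : Red (l.take t) := by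
  intro a ha
  cases l with
  | nil => simp at ha
  | cons b l =>
    cases t with
    | zero => simp at ha
    | succ t => exact h a (List.mem_of_mem_take ha)

theorem Red.drop {l : List F} (h : Red l) (t : ℕ) : Red (l.drop t) := by
  intro a ha
  rw [List.tail_drop, ← List.drop_tail] at ha
  exact h a (List.mem_of_mem_drop ha)

theorem mv_eq_one {i : Bool} {h : H} {a : F} (e : P.mv i h a = 1) : a = 0 := by
  by_contra ha
  exact ha (P.rig i h h a 0 (by rw [e, mv_zero]) ha).1

theorem red_wd : ∀ (l : List F) (z : Om H A), Red l → IsReduced (P.wd z l)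
  | [], _, _ => IsReduced.nil
  | [_], _, _ => IsReduced.singleton
  | a :: b :: l, z, h => by
    have ih := red_wd (b :: l) (P.fl (P.sl a z)) h.tail
    rw [wd] at ih
    rw [wd, wd]
    refine isReduced_cons_cons.2 ⟨fun e => ?_, ih⟩
    exfalso
    have hb : b ≠ 0 := h b (by simp)
    apply hb
    have e2 := congrArg P.ρ e
    simp only [lt, _root_.map_mul, P.ρτ, mul_one] at e2
    rw [P.sl_right b, fl_right, _root_.map_mul, P.ρmv] at e2
    exact P.mv_eq_one (left_eq_mul.1 e2)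

/-- Reachability by moves, in reduced form. -/
def Rel (z z' : Om H A) : Prop := ∃ l b, Red l ∧ z' = P.sl b (P.run z l)

theorem rel_refl (z : Om H A) : P.Rel z z :=
  ⟨[], 0, by simp [Red], by rw [sl_zero]; rfl⟩

variable {P}

theorem Rel.sl {x y : Om H A} (h : P.Rel x y) (a : F) : P.Rel x (P.sl a y) := by
  obtain ⟨l, b, hl, rfl⟩ := h
  exact ⟨l, b + a, hl, P.sl_sl _ _ _⟩

theorem Rel.fl {x y : Om H A} (h : P.Rel x y) : P.Rel x (P.fl y) := by
  obtain ⟨l, b, hl, rfl⟩ := h
  by_cases hb : b ≠ 0 ∨ l = []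
  · refine ⟨l ++ [b], 0, ?_, ?_⟩
    · rcases hb with hb | rfl
      · intro a ha
        cases l with
        | nil => simp at ha
        | cons c l =>
          simp only [List.cons_append, List.tail_cons, List.mem_append, List.mem_singleton] at ha
          rcases ha with ha | rfl
          · exact hl a ha
          · exact hb
      · simp [Red]
    · rw [sl_zero, run_append]; rfl
  · push Not at hb
    obtain ⟨rfl, hne⟩ := hb
    obtain ⟨m, a, rfl⟩ := List.eq_nil_or_concat l |>.resolve_left hne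
    rw [List.concat_eq_append] at hl ⊢
    refine ⟨m, a, ?_, ?_⟩
    · have := hl.take m.length
      simpa using this
    · rw [sl_zero, run_append]
      simp only [run]
      rw [fl_fl]

theorem Rel.run {x : Om H A} : ∀ (l : List F) {y : Om H A}, P.Rel x y → P.Rel x (P.run y l)
  | [], _, h => h
  | a :: l, _, h => Rel.run l (h.sl a).fl

theorem Rel.trans {x y z : Om H A} (h : P.Rel x y) (h' : P.Rel y z) : P.Rel x z := by
  obtain ⟨l, b, -, rfl⟩ := h'
  exact (h.run l).sl b

theorem rel_sl (a : F) (z : Om H A) : P.Rel (P.sl a z) z := by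
  have := (P.rel_refl (P.sl a z)).sl (-a)
  rwa [sl_sl, add_neg_cancel, sl_zero] at this

theorem rel_fl (z : Om H A) : P.Rel (P.fl z) z := by
  have := (P.rel_refl (P.fl z)).fl
  rwa [fl_fl] at this

theorem rel_run : ∀ (l : List F) (z : Om H A), P.Rel (P.run z l) z
  | [], z => P.rel_refl z
  | a :: l, z => ((rel_run l _).trans (rel_fl _)).trans (rel_sl a z)

theorem Rel.symm {x y : Om H A} (h : P.Rel x y) : P.Rel y x := by
  obtain ⟨l, b, -, rfl⟩ := h
  exact (rel_sl b _).trans (rel_run l x)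

variable (P)

def setoid : Setoid (Om H A) := ⟨P.Rel, ⟨P.rel_refl, Rel.symm, Rel.trans⟩⟩

theorem tr_sl (x : GG A) (a : F) (z : Om H A) : tr x (P.sl a z) = P.sl a (tr x z) := by
  simp [tr, sl, mul_assoc]

theorem tr_fl (x : GG A) (z : Om H A) : tr x (P.fl z) = P.fl (tr x z) := by
  simp [tr, fl, mul_assoc]

theorem tr_run (x : GG A) : ∀ (l : List F) (z : Om H A), tr x (P.run z l) = P.run (tr x z) l
  | [], _ => rfl
  | a :: l, z => by rw [run, run, tr_run x l, tr_fl, tr_sl]

theorem rel_tr (x : GG A) {y z : Om H A} (h : P.Rel y z) : P.Rel (tr x y) (tr x z) := by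
  obtain ⟨l, b, hl, rfl⟩ := h
  exact ⟨l, b, hl, by rw [tr_sl, tr_run]⟩

/-- The cones. -/
def Cn : Type := Quotient P.setoid

def cl (z : Om H A) : P.Cn := Quotient.mk P.setoid z

theorem cl_eq {y z : Om H A} : P.cl y = P.cl z ↔ P.Rel y z := Quotient.eq (r := P.setoid)

theorem cl_surj (c : P.Cn) : ∃ z, P.cl z = c := Quotient.exists_rep c

instance : MulAction (GG A) P.Cn where
  smul x := Quotient.map (sa := P.setoid) (sb := P.setoid) (tr x) fun _ _ h => P.rel_tr x h
  one_smul c := by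
    obtain ⟨z, rfl⟩ := P.cl_surj c
    change P.cl (tr 1 z) = P.cl z
    simp [tr]
  mul_smul x y c := by
    obtain ⟨z, rfl⟩ := P.cl_surj c
    change P.cl (tr (x * y) z) = P.cl (tr x (tr y z))
    simp [tr, mul_assoc]

theorem smul_cl (x : GG A) (z : Om H A) : x • P.cl z = P.cl (tr x z) := rfl

theorem cl_sl (a : F) (z : Om H A) : P.cl (P.sl a z) = P.cl z := P.cl_eq.2 (rel_sl a z)

theorem cl_fl (z : Om H A) : P.cl (P.fl z) = P.cl z := P.cl_eq.2 (rel_fl z)

theorem cl_run (l : List F) (z : Om H A) : P.cl (P.run z l) = P.cl z := P.cl_eq.2 (rel_run l z)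

def Y (c : P.Cn) : Set (GG A) := {x | ∃ z, P.cl z = c ∧ x.left = z.1.left}

theorem Y_ne (c : P.Cn) : (P.Y c).Nonempty := by
  obtain ⟨z, rfl⟩ := P.cl_surj c
  exact ⟨z.1, z, rfl, rfl⟩

theorem mul_left_congr (x : GG A) {a b : GG A} (h : a.left = b.left) :
    (x * a).left = (x * b).left := by
  simp [h]

theorem Y_smul (x : GG A) (c : P.Cn) (a : GG A) (ha : a ∈ P.Y c) : x • a ∈ P.Y (x • c) := by
  obtain ⟨z, rfl, e⟩ := ha
  exact ⟨tr x z, rfl, mul_left_congr x e⟩

theorem two {c : P.Cn} {a b : GG A} (ha : a ∈ P.Y c) (hb : b ∈ P.Y c) :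
    ∃ z l, P.cl z = c ∧ Red l ∧ a.left = z.1.left ∧ b.left = (P.run z l).1.left := by
  obtain ⟨z, rfl, e⟩ := ha
  obtain ⟨z', h, e'⟩ := hb
  obtain ⟨l, s, hl, rfl⟩ := P.cl_eq.1 h.symm
  exact ⟨z, l, rfl, hl, e, by rw [e', sl_left]⟩

/-! ### Products in `H` along a walk -/

def pr : Bool → List F → H
  | _, [] => 1
  | i, a :: l => P.al i a * pr (!i) l

def hw : Bool → List F → List (Bool × F)
  | _, [] => []
  | i, a :: l => (i, a) :: hw (!i) l

theorem pr_hw : ∀ (l : List F) (i : Bool),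
    P.pr i l = ((hw i l).map fun x => P.α x.1 (Multiplicative.ofAdd x.2)).prod
  | [], _ => rfl
  | a :: l, i => by simp [pr, hw, pr_hw l, al]

omit [Field F] in
theorem hw_length : ∀ (l : List F) (i : Bool), (hw i l).length = l.length
  | [], _ => rfl
  | a :: l, i => by simp [hw, hw_length l]

omit [Field F] in
theorem hw_mem : ∀ (l : List F) (i : Bool), ∀ x ∈ hw i l, x.2 ∈ l
  | [], _, x, h => by simp [hw] at h
  | a :: l, i, x, h => by
    simp only [hw, List.mem_cons] at h ⊢
    rcases h with rfl | h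
    · exact Or.inl rfl
    · exact Or.inr (hw_mem l _ x h)

omit [Field F] in
theorem hw_chain : ∀ (l : List F) (i : Bool), (hw i l).IsChain (fun x y => x.1 ≠ y.1)
  | [], _ => List.IsChain.nil
  | [_], _ => List.IsChain.singleton _
  | a :: b :: l, i => by
    have ih := hw_chain (b :: l) (!i)
    rw [hw] at ih
    rw [hw, hw]
    exact List.IsChain.cons_cons (by cases i <;> simp) ih

theorem g0 {l : List F} (i : Bool) (h1 : l ≠ []) (h2 : l.length ≤ g) (h3 : ∀ a ∈ l, a ≠ 0) :
    P.pr i l ≠ 1 := by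
  rw [pr_hw]
  refine P.girth _ ?_ (by rw [hw_length]; exact h2) (fun x hx => h3 _ (hw_mem l i x hx))
    (hw_chain l i)
  intro e
  have := hw_length l i
  rw [e] at this
  exact h1 (List.length_eq_zero_iff.1 this.symm)

theorem pr_zero : ∀ (l : List F) (i : Bool), P.pr i (l ++ [0]) = P.pr i l
  | [], i => by simp [pr, al_zero]
  | a :: l, i => by simp [pr, pr_zero l]

theorem g1 {l : List F} (i : Bool) (b : F) (h1 : l ≠ []) (h2 : l.length + 1 ≤ g)
    (h3 : ∀ a ∈ l, a ≠ 0) : P.pr i (l ++ [b]) ≠ 1 := by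
  by_cases hb : b = 0
  · rw [hb, pr_zero]; exact P.g0 i h1 (by omega) h3
  · refine P.g0 i (by simp) (by simpa using h2) fun a ha => ?_
    rcases List.mem_append.1 ha with ha | ha
    · exact h3 a ha
    · rw [List.mem_singleton.1 ha]; exact hb

theorem g2 {l : List F} (i : Bool) (a b : F) (h1 : l ≠ []) (h2 : l.length + 2 ≤ g)
    (h3 : ∀ a ∈ l, a ≠ 0) : P.pr i (a :: l ++ [b]) ≠ 1 := by
  by_cases ha : a = 0
  · rw [ha, List.cons_append, pr, al_zero, one_mul]
    exact P.g1 _ b h1 (by omega) h3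
  · refine P.g1 i b (by simp) (by simp; omega) fun c hc => ?_
    rcases List.mem_cons.1 hc with rfl | hc
    · exact ha
    · exact h3 c hc

theorem run_state : ∀ (l : List F) (b : F) (z : Om H A),
    (P.sl b (P.run z l)).2.2 = z.2.2 * P.pr z.2.1 (l ++ [b])
  | [], b, z => by simp [run, sl, pr]
  | a :: l, b, z => by
    rw [run, run_state l]
    simp [sl, fl, pr, mul_assoc]

theorem al_inj {i : Bool} {a : F} (h : P.al i a = 1) : a = 0 := by
  by_contra ha
  have := P.big
  exact P.g0 (l := [a]) i (by simp) (by simp; omega) (by simpa using ha) (by simpa [pr] using h)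

theorem al_inter {i : Bool} {a b : F} (h : P.al i a = P.al (!i) b) : P.al i a = 1 := by
  by_cases ha : a = 0
  · rw [ha, al_zero]
  by_cases hb : b = 0
  · rw [h, hb, al_zero]
  exfalso
  refine P.g0 (l := [a, -b]) i (by simp) (by simpa using P.big) (by simp [ha, hb]) ?_
  simp only [pr, mul_one]
  rw [h, ← al_add, add_neg_cancel, al_zero]

/-- Rigidity: three equal letters force the same cone. -/
theorem rigid {z z' : Om H A} {l l' : List F} (hl : Red l) (hl' : Red l') (h3 : 3 ≤ l.length)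
    (e : z.1.left = z'.1.left) (hw : P.wd z l = P.wd z' l') : P.cl z = P.cl z' := by
  have hlen : l'.length = l.length := by rw [← P.wd_length l z, hw, wd_length]
  obtain ⟨a1, a2, a3, m, rfl⟩ : ∃ a1 a2 a3 m, l = a1 :: a2 :: a3 :: m := by
    match l, h3 with
    | a1 :: a2 :: a3 :: m, _ => exact ⟨a1, a2, a3, m, rfl⟩
  obtain ⟨b1, b2, b3, m', rfl⟩ : ∃ a1 a2 a3 m, l' = a1 :: a2 :: a3 :: m := by
    have h4 : 3 ≤ l'.length := by rw [hlen]; exact h3
    match l', h4 with
    | a1 :: a2 :: a3 :: m, _ => exact ⟨a1, a2, a3, m, rfl⟩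
  simp only [wd, List.cons.injEq] at hw
  obtain ⟨e1, e2, e3, -⟩ := hw
  rw [← P.cl_sl a1 z, ← P.cl_sl b1 z']
  have el : (P.sl a1 z).1.left = (P.sl b1 z').1.left := by rw [sl_left, sl_left, e]
  generalize P.sl a1 z = y at *
  generalize P.sl b1 z' = y' at *
  obtain ⟨x, i, h⟩ := y
  obtain ⟨x', i', h'⟩ := y'
  have ha2 : a2 ≠ 0 := hl a2 (by simp)
  have ha3 : a3 ≠ 0 := hl a3 (by simp)
  simp only [lt, Prod.mk.injEq] at e1 e2 e3
  obtain ⟨e1, ei⟩ := e1
  subst ei
  have f1 := congrArg P.ρ e1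
  have f2 := congrArg P.ρ e2.1
  have f3 := congrArg P.ρ e3.1
  simp only [sl_right, fl_right, _root_.map_mul, P.ρτ, P.ρmv, mul_one] at f1 f2 f3
  simp only [fl, sl] at f2 f3
  rw [f1] at f2 f3
  have k2 := mul_left_cancel f2
  rw [k2] at f3
  have k3 := mul_left_cancel f3
  obtain ⟨r2, s, hs⟩ := P.rig _ _ _ _ _ k2 ha2
  obtain ⟨-, s', hs'⟩ := P.rig _ _ _ _ _ k3 ha3
  subst r2
  change h' = h * P.al (!i) s at hs
  change _ = _ * P.al (!(!i)) s' at hs'
  have k4 : P.al (!i) s = P.al (!(!i)) s' := by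
    rw [hs, mul_assoc, mul_assoc, ← al_add, add_comm, al_add] at hs'
    exact mul_left_cancel (mul_left_cancel hs')
  have k5 : h' = h := by rw [hs, P.al_inter k4, mul_one]
  subst k5
  have k6 : x = x' := SemidirectProduct.ext el (mul_right_cancel e1)
  rw [k6]

variable [DecidableEq A]

theorem d_run (z : Om H A) {l : List F} (hl : Red l) {a b : GG A} (ha : a.left = z.1.left)
    (hb : b.left = (P.run z l).1.left) : (DD A).d a b = l.length := by
  rw [DD_d, ha, hb, run_left, inv_mul_cancel_left, norm_mk_red (P.red_wd l z hl), wd_length]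

theorem convex (c : P.Cn) (a b w : GG A) (ha : a ∈ P.Y c) (hb : b ∈ P.Y c)
    (hw : (DD A).d a w + (DD A).d w b = (DD A).d a b) : w ∈ P.Y c := by
  obtain ⟨z, l, rfl, hl, ea, eb⟩ := P.two ha hb
  have h1 := P.d_run z hl ea eb
  set t := (DD A).d a w with ht
  have h2 := P.d_run z (hl.take t) ea rfl
  have h3 := P.d_run (P.run z (l.take t)) (hl.drop t) (b := b) rfl
    (by rw [← run_append, List.take_append_drop]; exact eb)
  rw [List.length_take] at h2
  rw [List.length_drop] at h3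
  have h4 := hyp0 (A := A) w (P.run z (l.take t)).1 a b
  have h5 := (DD A).symm w a
  have h6 := (DD A).symm (P.run z (l.take t)).1 a
  have h7 : (DD A).d w (P.run z (l.take t)).1 = 0 := by omega
  rw [DD_d, FreeGroup.norm_eq_zero, inv_mul_eq_one] at h7
  exact ⟨_, P.cl_run _ _, h7⟩

theorem overlap (c c' : P.Cn) (a b : GG A) (hne : c ≠ c') (ha : a ∈ P.Y c) (hb : b ∈ P.Y c)
    (ha' : a ∈ P.Y c') (hb' : b ∈ P.Y c') : (DD A).d a b ≤ 2 := by
  by_contra hd
  obtain ⟨z, l, rfl, hl, ea, eb⟩ := P.two ha hb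
  obtain ⟨z', l', rfl, hl', ea', eb'⟩ := P.two ha' hb'
  have h1 := P.d_run z hl ea eb
  refine hne (P.rigid hl hl' (by omega) (ea.symm.trans ea') ?_)
  have h2 : FreeGroup.mk (P.wd z l) = FreeGroup.mk (P.wd z' l') := by
    have := eb.symm.trans eb'
    rw [run_left, run_left, ← ea, ← ea'] at this
    exact mul_left_cancel this
  have h3 := congrArg toWord h2
  rwa [toWord_mk, toWord_mk, (P.red_wd l z hl).reduce_eq, (P.red_wd l' z' hl').reduce_eq] at h3

theorem spin (c : P.Cn) (x : GG A) (hx : x • c = c) (h1 : x ≠ 1) (b : GG A) (hb : b ∈ P.Y c) :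
    g ≤ (DD A).d b (x • b) := by
  obtain ⟨z, rfl, e⟩ := hb
  obtain ⟨l, s, hl, h⟩ := P.cl_eq.1 hx.symm
  have h2 : (DD A).d b (x • b) = l.length := by
    refine P.d_run z hl e ?_
    rw [← P.sl_left s, ← h]
    exact mul_left_congr x e
  have h3 := P.run_state l s z
  rw [← h] at h3
  have h4 : P.pr z.2.1 (l ++ [s]) = 1 := left_eq_mul.1 h3
  rw [h2]
  match l, hl, h, h4 with
  | [], _, h, h4 =>
    exfalso
    have hs : s = 0 := P.al_inj (i := z.2.1) (by simpa [pr] using h4)
    rw [hs, sl_zero] at h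
    exact h1 (mul_eq_right.1 (congrArg Prod.fst h))
  | [a], _, h, _ =>
    exfalso
    have := congrArg (fun w => w.2.1) h
    simp [tr, sl, run, fl] at this
  | a :: a' :: m, hl, _, h4 =>
    by_contra hg
    exact P.g2 z.2.1 a s (l := a' :: m) (by simp) (by simp at hg ⊢; omega) hl h4

theorem cobdd [Finite H] : ∃ M : ℕ, ∀ c a b, a ∈ P.Y c → b ∈ P.Y c →
    ∃ x : GG A, x • c = c ∧ (DD A).d a (x • b) ≤ M := by
  classical
  have key : ∀ s : (Bool × H) × (Bool × H), ∃ x : GG A,
      (∃ x', P.Rel (1, s.1) (x', s.2)) → P.Rel (1, s.1) (x, s.2) := by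
    intro s
    by_cases h : ∃ x', P.Rel (1, s.1) (x', s.2)
    · obtain ⟨x, hx⟩ := h
      exact ⟨x, fun _ => hx⟩
    · exact ⟨1, fun h' => absurd h' h⟩
  choose f hf using key
  obtain ⟨M, hM⟩ := (Set.finite_range fun s => (DD A).d 1 (f s)).bddAbove
  refine ⟨M, ?_⟩
  rintro c a b ⟨z, rfl, ea⟩ ⟨z', h, eb⟩
  have h1 := P.rel_tr z.1⁻¹ (P.cl_eq.1 h.symm)
  have h2 := hf (z.2, z'.2) ⟨z.1⁻¹ * z'.1, by simpa [tr] using h1⟩
  have h3 := P.rel_tr z.1 h2
  refine ⟨z.1 * f (z.2, z'.2) * z'.1⁻¹, ?_, ?_⟩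
  · conv_lhs => rw [← h]
    rw [smul_cl, eq_comm, cl_eq]
    simpa [tr] using h3
  · have h4 := hM ⟨(z.2, z'.2), rfl⟩
    have h5 := iso (A := A) z.1 1 (f (z.2, z'.2))
    have h6 : ((z.1 * f (z.2, z'.2) * z'.1⁻¹) • b).left = (z.1 • f (z.2, z'.2)).left := by
      have := mul_left_congr (z.1 * f (z.2, z'.2) * z'.1⁻¹) eb
      rwa [inv_mul_cancel_right] at this
    rw [DD_d, h6, ea]
    rw [DD_d, smul_eq_mul, mul_one] at h5
    rw [h5]
    exact h4

omit [DecidableEq A] in
/-- Frames: points of the states, compatible with the moves up to cone stabilizers. -/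
theorem frames : ∃ p : Bool × H → GG A, ∀ (s s' : Bool × H) (x : GG A),
    P.Rel (p s, s) (x, s') → ∃ c : P.Cn, (p s' * x⁻¹) • c = c := by
  have key : ∀ s : Bool × H, ∃ x : GG A, P.cl (x, s) =
      (Quotient.mk (orbitRel (GG A) P.Cn) (P.cl (1, s))).out := by
    intro s
    obtain ⟨x, hx⟩ := Quotient.mk_out (s := orbitRel (GG A) P.Cn) (P.cl (1, s))
    exact ⟨x, by rw [← hx]; simp [smul_cl, tr]⟩
  choose p hp using key
  refine ⟨p, fun s s' x h => ⟨P.cl (x, s'), ?_⟩⟩
  have h1 : P.cl (p s, s) = P.cl (x, s') := P.cl_eq.2 h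
  have h2 : Quotient.mk (orbitRel (GG A) P.Cn) (P.cl (1, s)) =
      Quotient.mk (orbitRel (GG A) P.Cn) (P.cl (1, s')) := by
    refine Quotient.sound ⟨(p s)⁻¹ * x, ?_⟩
    have h3 := congrArg (fun c => (p s)⁻¹ • c) h1
    simp only [smul_cl, tr, inv_mul_cancel] at h3
    simp only [smul_cl, tr, mul_one]
    exact h3.symm
  rw [smul_cl, ← h1, hp s, h2, ← hp s']
  simp [tr]

end Dat

theorem ball_fin {A : Type} [CommGroup A] [DecidableEq A] [Finite A] (R : ℕ) :
    {x : GG A | (DD A).d 1 x ≤ R}.Finite := by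
  have h1 := (List.finite_length_le (A × Bool) R).prod (Set.finite_univ (α := A))
  refine Set.Finite.of_finite_image (f := fun x : GG A => (x.left.toWord, x.right))
    (h1.subset ?_) ?_
  · rintro _ ⟨x, hx, rfl⟩
    refine ⟨?_, trivial⟩
    simpa [DD_d, FreeGroup.norm] using hx
  · intro x _ y _ h
    simp only [Prod.mk.injEq] at h
    exact SemidirectProduct.ext (toWord_injective h.1) h.2

end Pool.Agent.NS
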